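import Mathlib

/-!
Skeletons of chains in a family of sets, at a given resolution.
-/

set_option autoImplicit false
set_option maxHeartbeats 400000
set_option linter.unusedSectionVars false

namespace Pool.Agent.P.MP_b193f0_co

open Finset

variable {α : Type} [Fintype α] [DecidableEq α]

/-- The points whose time is below `q`. -/
def low (t : α → ℕ) (q : ℕ) : Finset α := univ.filter fun x => t x < q

/-- The points whose window of length `Q` is at most the window of `q`. -/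
def up (t : α → ℕ) (Q q : ℕ) : Finset α := univ.filter fun x => t x / Q ≤ q / Q

/-- `t` is the arrival time function of a chain in `B`, at resolution `g`. -/
def IsSk (B : Finset α → Prop) (g : ℕ) (t : α → ℕ) : Prop :=
  ∀ q, B (low t q) ∧ (low t q).card ≤ q * g ∧ ((∃ x, t x = q) → q * g < (low t (q + 1)).card)

open Classical in
/-- The finite set of all skeletons at resolution `g`. -/
noncomputable def Sk (B : Finset α → Prop) (g : ℕ) : Finset (α → ℕ) :=
  (Fintype.piFinset fun _ => range (Fintype.card α + 1)).filter (IsSk B g)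

/-- Some point arrives before step `q` in the window of length `Q` of `q`. -/
def NonFirst (t : α → ℕ) (Q q : ℕ) : Prop := ∃ x, t x < q ∧ t x / Q = q / Q

/-- Same windows of length `Q` and same history before step `q`. -/
def Ctx (Q q : ℕ) (t t' : α → ℕ) : Prop :=
  (∀ x, t x / Q = t' x / Q) ∧ ∀ x, min (t x) q = min (t' x) q

@[simp] lemma mem_low {t : α → ℕ} {q : ℕ} {x : α} : x ∈ low t q ↔ t x < q := by simp [low]

@[simp] lemma mem_up {t : α → ℕ} {Q q : ℕ} {x : α} : x ∈ up t Q q ↔ t x / Q ≤ q / Q := by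
  simp [up]

lemma low_mono (t : α → ℕ) {q q' : ℕ} (h : q ≤ q') : low t q ⊆ low t q' := by
  intro x hx
  simp only [mem_low] at hx ⊢
  omega

lemma up_eq_low (t : α → ℕ) {Q : ℕ} (hQ : 0 < Q) (q : ℕ) :
    up t Q q = low t ((q / Q + 1) * Q) := by
  ext x
  simp only [mem_up, mem_low]
  rw [← Nat.div_lt_iff_lt_mul hQ]
  omega

lemma low_subset_up (t : α → ℕ) (Q q : ℕ) : low t q ⊆ up t Q q := by
  intro x hx
  simp only [mem_low, mem_up] at hx ⊢
  exact Nat.div_le_div_right hx.le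

lemma div_le_of_dvd {Q Q' a b : ℕ} (h : Q ∣ Q') (hab : a / Q ≤ b / Q) : a / Q' ≤ b / Q' := by
  obtain ⟨c, rfl⟩ := h
  rw [← Nat.div_div_eq_div_mul, ← Nat.div_div_eq_div_mul]
  exact Nat.div_le_div_right hab

lemma div_eq_of_dvd {Q Q' a b : ℕ} (h : Q ∣ Q') (hab : a / Q = b / Q) : a / Q' = b / Q' :=
  le_antisymm (div_le_of_dvd h hab.le) (div_le_of_dvd h hab.ge)

lemma up_mono (t : α → ℕ) {Q Q' : ℕ} (h : Q ∣ Q') (q : ℕ) : up t Q q ⊆ up t Q' q := by
  intro x hx
  simp only [mem_up] at hx ⊢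
  exact div_le_of_dvd h hx

lemma NonFirst.mono {t : α → ℕ} {Q Q' q : ℕ} (h : Q ∣ Q') (hn : NonFirst t Q q) :
    NonFirst t Q' q := by
  obtain ⟨x, h1, h2⟩ := hn
  exact ⟨x, h1, div_eq_of_dvd h h2⟩

lemma Ctx.refl (Q q : ℕ) (t : α → ℕ) : Ctx Q q t t := ⟨fun _ => rfl, fun _ => rfl⟩

lemma Ctx.symm {Q q : ℕ} {t t' : α → ℕ} (h : Ctx Q q t t') : Ctx Q q t' t :=
  ⟨fun x => (h.1 x).symm, fun x => (h.2 x).symm⟩

lemma Ctx.trans {Q q : ℕ} {t t' t'' : α → ℕ} (h : Ctx Q q t t') (h' : Ctx Q q t' t'') :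
    Ctx Q q t t'' :=
  ⟨fun x => (h.1 x).trans (h'.1 x), fun x => (h.2 x).trans (h'.2 x)⟩

lemma Ctx.mono {Q Q' q q' : ℕ} {t t' : α → ℕ} (h : Ctx Q q t t') (hQ : Q ∣ Q') (hq : q' ≤ q) :
    Ctx Q' q' t t' := by
  refine ⟨fun x => div_eq_of_dvd hQ (h.1 x), fun x => ?_⟩
  have := h.2 x
  omega

lemma Ctx.low_eq {Q q : ℕ} {t t' : α → ℕ} (h : Ctx Q q t t') : low t q = low t' q := by
  ext x
  have := h.2 x
  simp only [mem_low]
  omega

lemma Ctx.up_eq {Q q : ℕ} {t t' : α → ℕ} (h : Ctx Q q t t') (q' : ℕ) :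
    up t Q q' = up t' Q q' := by
  ext x
  simp only [mem_up, h.1 x]

lemma IsSk.lt {B : Finset α → Prop} {g : ℕ} {t : α → ℕ} (h : IsSk B g t) (x : α) :
    t x * g < Fintype.card α :=
  lt_of_lt_of_le ((h (t x)).2.2 ⟨x, rfl⟩) (card_le_univ _)

lemma IsSk.lt_card {B : Finset α → Prop} {g : ℕ} {t : α → ℕ} (h : IsSk B g t) (hg : 0 < g)
    (x : α) : t x < Fintype.card α :=
  lt_of_le_of_lt (Nat.le_mul_of_pos_right _ hg) (h.lt x)

lemma mem_Sk {B : Finset α → Prop} {g : ℕ} (hg : 0 < g) {t : α → ℕ} :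
    t ∈ Sk B g ↔ IsSk B g t := by
  classical
  simp only [Sk, mem_filter, Fintype.mem_piFinset, mem_range]
  exact ⟨fun h => h.2, fun h => ⟨fun x => Nat.lt_succ_of_lt (h.lt_card hg x), h⟩⟩

lemma IsSk.coarse {B : Finset α → Prop} {g : ℕ} {t : α → ℕ} (h : IsSk B g t) {Q : ℕ}
    (hQ : 0 < Q) : IsSk B (g * Q) fun x => t x / Q := by
  have hl : ∀ q, low (fun x => t x / Q) q = low t (q * Q) := by
    intro q
    ext x
    simp only [mem_low]
    exact Nat.div_lt_iff_lt_mul hQ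
  intro q
  rw [hl, hl]
  refine ⟨(h _).1, ?_, ?_⟩
  · calc _ ≤ q * Q * g := (h _).2.1
      _ = q * (g * Q) := by ring
  · rintro ⟨x, hx⟩
    have h1 := (h (t x)).2.2 ⟨x, rfl⟩
    have h2 : q * Q ≤ t x := by
      rw [← hx]
      exact Nat.div_mul_le_self _ _
    have h3 : t x + 1 ≤ (q + 1) * Q := by
      rw [← hx]
      exact (Nat.div_lt_iff_lt_mul hQ).1 (Nat.lt_succ_self _)
    calc q * (g * Q) = q * Q * g := by ring
      _ ≤ t x * g := Nat.mul_le_mul_right _ h2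
      _ < _ := h1
      _ ≤ _ := card_le_card (low_mono t h3)

lemma IsSk.up_mem {B : Finset α → Prop} {g : ℕ} {t : α → ℕ} (h : IsSk B g t) {Q : ℕ}
    (hQ : 0 < Q) (q : ℕ) : B (up t Q q) := by
  rw [up_eq_low t hQ]
  exact (h _).1

lemma IsSk.card_up {B : Finset α → Prop} {g : ℕ} {t : α → ℕ} (h : IsSk B g t) {Q q : ℕ}
    (hQ : 0 < Q) (hn : NonFirst t Q q) : (up t Q q).card ≤ (low t q).card + g * Q := by
  obtain ⟨x, h1, h2⟩ := hn
  have h3 := (h (t x)).2.2 ⟨x, rfl⟩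
  have h4 : (low t (t x + 1)).card ≤ (low t q).card := card_le_card (low_mono t h1)
  have h5 : q / Q * Q ≤ t x := by
    rw [← h2]
    exact Nat.div_mul_le_self _ _
  have h6 := Nat.mul_le_mul_right g h5
  rw [up_eq_low t hQ]
  calc _ ≤ (q / Q + 1) * Q * g := (h _).2.1
    _ = q / Q * Q * g + g * Q := by ring
    _ ≤ _ := by omega

lemma card_Sk_le (B : Finset α → Prop) {g : ℕ} (hg : 0 < g) :
    (Sk B g).card ≤ (Fintype.card α / g + 1) ^ Fintype.card α := by
  have : Sk B g ⊆ Fintype.piFinset fun _ => range (Fintype.card α / g + 1) := by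
    intro t ht
    rw [mem_Sk hg] at ht
    simp only [Fintype.mem_piFinset, mem_range]
    intro x
    exact Nat.lt_succ_of_le ((Nat.le_div_iff_mul_le hg).2 (ht.lt x).le)
  simpa using card_le_card this

lemma card_Sk_le_mul (B : Finset α → Prop) {g Q : ℕ} (hg : 0 < g) (hQ : 0 < Q) :
    (Sk B g).card ≤ (Sk B (g * Q)).card * Q ^ Fintype.card α := by
  have h : (Sk B g).card ≤
      (Sk B (g * Q) ×ˢ Fintype.piFinset fun _ : α => range Q).card := by
    refine card_le_card_of_injOn (fun t => (fun x => t x / Q, fun x => t x % Q)) ?_ ?_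
    · intro t ht
      rw [mem_coe, mem_Sk hg] at ht
      simp only [coe_product, Set.mem_prod, mem_coe, Fintype.mem_piFinset, mem_range]
      exact ⟨(mem_Sk (Nat.mul_pos hg hQ)).2 (ht.coarse hQ), fun x => Nat.mod_lt _ hQ⟩
    · intro t _ t' _ h
      simp only [Prod.mk.injEq] at h
      funext x
      rw [← Nat.div_add_mod (t x) Q, ← Nat.div_add_mod (t' x) Q, congrFun h.1 x, congrFun h.2 x]
  simpa using h

end Pool.Agent.P.MP_b193f0_co
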