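import Mathlib

/-!
Counting lemmas: small subsets, codes, greedy covers and free tuples.
-/

set_option autoImplicit false
set_option maxHeartbeats 400000
set_option linter.unusedSectionVars false

namespace Pool.Agent.P.MP_b193f0_co

open Finset

lemma card_small_subsets {β : Type} [DecidableEq β] (Ω : Finset β) {y g : ℕ} (r : ℕ)
    (hy : 0 < y) (h : Ω.card ≤ y * g) :
    (Ω.powerset.filter fun F => F.card ≤ r).card ≤ y ^ r * 3 ^ g := by
  have hy' : (0 : ℝ) < y := by exact_mod_cast hy
  have hy1 : (1 : ℝ) ≤ y := by exact_mod_cast hy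
  have h1 : ∑ F ∈ Ω.powerset, (1 / (y : ℝ)) ^ F.card = (1 + 1 / (y : ℝ)) ^ Ω.card := by
    have := Finset.prod_one_add (f := fun _ : β => 1 / (y : ℝ)) Ω
    simp only [prod_const] at this
    exact this.symm
  have h2 : (1 + 1 / (y : ℝ)) ^ Ω.card ≤ 3 ^ g := by
    calc (1 + 1 / (y : ℝ)) ^ Ω.card ≤ (1 + 1 / (y : ℝ)) ^ (y * g) :=
          pow_le_pow_right₀ (le_add_of_nonneg_right (by positivity)) h
      _ ≤ (Real.exp (1 / (y : ℝ))) ^ (y * g) := by
          apply pow_le_pow_left₀ (by positivity)
          rw [add_comm]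
          exact Real.add_one_le_exp _
      _ = (Real.exp 1) ^ g := by
          rw [pow_mul, ← Real.exp_nat_mul]
          congr 2
          field_simp
      _ ≤ 3 ^ g := by
          apply pow_le_pow_left₀ (by positivity)
          have := Real.exp_one_lt_d9
          linarith
  have h3 : ((Ω.powerset.filter fun F => F.card ≤ r).card : ℝ) * (1 / (y : ℝ)) ^ r ≤
      ∑ F ∈ Ω.powerset, (1 / (y : ℝ)) ^ F.card := by
    calc _ = ∑ _F ∈ Ω.powerset.filter (fun F => F.card ≤ r), (1 / (y : ℝ)) ^ r := by
          rw [sum_const, nsmul_eq_mul]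
      _ ≤ ∑ F ∈ Ω.powerset.filter (fun F => F.card ≤ r), (1 / (y : ℝ)) ^ F.card := by
          refine sum_le_sum fun F hF => ?_
          apply pow_le_pow_of_le_one (by positivity) _ (mem_filter.1 hF).2
          rw [div_le_one hy']
          exact hy1
      _ ≤ _ := sum_le_sum_of_subset_of_nonneg (filter_subset _ _) fun _ _ _ => by positivity
  have h4 : ((Ω.powerset.filter fun F => F.card ≤ r).card : ℝ) ≤ (y : ℝ) ^ r * 3 ^ g := by
    have h5 := h3.trans (h1.le.trans h2)
    have h6 : (0 : ℝ) < (y : ℝ) ^ r := by positivity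
    rw [one_div, inv_pow, ← div_eq_mul_inv, div_le_iff₀ h6] at h5
    linarith
  exact_mod_cast h4

lemma exists_code {X κ β : Type} (V : X → Prop) (key : X → κ) (f : X → β) (c : ℕ)
    (h : ∀ k, ∃ S : Finset β, S.card ≤ c ∧ ∀ x, V x → key x = k → f x ∈ S) :
    ∃ code : X → ℕ, (∀ x, V x → code x < c) ∧
      ∀ x x', V x → V x' → key x = key x' → code x = code x' → f x = f x' := by
  classical
  choose S hS using h
  refine ⟨fun x => (S (key x)).toList.idxOf (f x), fun x hx => ?_, fun x x' hx hx' hk hc => ?_⟩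
  · have h1 : f x ∈ (S (key x)).toList := mem_toList.2 ((hS _).2 x hx rfl)
    have h2 := List.idxOf_lt_length_of_mem h1
    rw [length_toList] at h2
    exact lt_of_lt_of_le h2 (hS _).1
  · have h1 : f x ∈ (S (key x)).toList := mem_toList.2 ((hS _).2 x hx rfl)
    simp only [← hk] at hc
    exact (List.idxOf_inj h1).1 hc

lemma exists_greedy {α : Type} [DecidableEq α] (a : Finset (Finset α)) (r p : Finset α)
    {lam : ℕ} (h : 0 < lam) :
    ∃ F ⊆ a, lam * F.card ≤ ((F.biUnion id ∩ r) \ p).card ∧
      ∀ A ∈ a, ((A ∩ r) \ (p ∪ F.biUnion id)).card < lam := by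
  obtain ⟨F, hF, hmax⟩ := exists_max_image
    (a.powerset.filter fun F => lam * F.card ≤ ((F.biUnion id ∩ r) \ p).card) card
    ⟨∅, by simp⟩
  rw [mem_filter, mem_powerset] at hF
  refine ⟨F, hF.1, hF.2, fun A hA => ?_⟩
  by_contra hcon
  push Not at hcon
  have hAF : A ∉ F := by
    intro hAF
    have : (A ∩ r) \ (p ∪ F.biUnion id) = ∅ := by
      rw [sdiff_eq_empty_iff_subset]
      intro x hx
      exact mem_union_right _ (mem_biUnion.2 ⟨A, hAF, (mem_inter.1 hx).1⟩)
    rw [this, card_empty] at hcon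
    omega
  have hmem : insert A F ∈
      a.powerset.filter fun F => lam * F.card ≤ ((F.biUnion id ∩ r) \ p).card := by
    rw [mem_filter, mem_powerset]
    refine ⟨insert_subset hA hF.1, ?_⟩
    have hd : Disjoint ((F.biUnion id ∩ r) \ p) ((A ∩ r) \ (p ∪ F.biUnion id)) := by
      rw [disjoint_left]
      intro x h1 h2
      simp only [mem_sdiff, mem_inter, mem_union, not_or] at h1 h2
      exact h2.2.2 h1.1.1
    have hs : ((F.biUnion id ∩ r) \ p) ∪ ((A ∩ r) \ (p ∪ F.biUnion id)) ⊆
        ((insert A F).biUnion id ∩ r) \ p := by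
      intro x hx
      simp only [biUnion_insert, id, mem_sdiff, mem_inter, mem_union, not_or] at hx ⊢
      tauto
    have := card_le_card hs
    rw [card_union_of_disjoint hd] at this
    rw [card_insert_of_notMem hAF, mul_add]
    omega
  have := hmax _ hmem
  rw [card_insert_of_notMem hAF] at this
  omega

/-- If every tuple from `Y` has a coordinate in a small set that does not depend on this
coordinate, then `Y` is small. -/
lemma card_le_of_no_free {α W : Type} [DecidableEq α] [Fintype W] [DecidableEq W]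
    (Y : Finset α) (f : W → (W → α) → Finset α) (lam : ℕ)
    (hloc : ∀ i x a, f i (Function.update x i a) = f i x)
    (hcard : ∀ i x, (∀ j, x j ∈ Y) → (f i x).card ≤ lam)
    (hbad : ∀ x : W → α, (∀ j, x j ∈ Y) → ∃ i, x i ∈ f i x) :
    Y.card ≤ Fintype.card W * lam := by
  rcases Y.eq_empty_or_nonempty with rfl | ⟨y₀, hy₀⟩
  · simp
  set T : Finset (W → α) := Fintype.piFinset fun _ => Y with hT
  have hTc : T.card = Y.card ^ Fintype.card W := by simp [hT]
  have key : ∀ i : W, (T.filter fun x => x i ∈ f i x).card * Y.card ≤ T.card * lam := by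
    intro i
    have h1 : (T.filter fun x => x i ∈ f i x).card * Y.card =
        ((T.filter fun x => x i ∈ f i x) ×ˢ Y).card := by rw [card_product]
    have h2 : (T.sigma fun x => f i x).card ≤ T.card * lam := by
      rw [card_sigma]
      refine (sum_le_card_nsmul _ _ lam fun x hx => hcard i x ?_).trans (by simp)
      exact Fintype.mem_piFinset.1 hx
    rw [h1]
    refine le_trans ?_ h2
    refine card_le_card_of_injOn (fun p => ⟨Function.update p.1 i p.2, p.1 i⟩) ?_ ?_
    · rintro ⟨x, a⟩ hp
      simp only [coe_product, Set.mem_prod, mem_coe, mem_filter, hT,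
        Fintype.mem_piFinset] at hp
      simp only [coe_sigma, Set.mem_sigma_iff, mem_coe, hT, Fintype.mem_piFinset, hloc]
      refine ⟨fun j => ?_, hp.1.2⟩
      rcases eq_or_ne j i with rfl | hj
      · simpa using hp.2
      · simpa [hj] using hp.1.1 j
    · rintro ⟨x, a⟩ _ ⟨x', a'⟩ _ h
      simp only [Sigma.mk.injEq, heq_eq_eq] at h
      have ha : a = a' := by simpa using congrFun h.1 i
      refine Prod.ext (funext fun j => ?_) ha
      rcases eq_or_ne j i with rfl | hj
      · exact h.2
      · simpa [hj] using congrFun h.1 j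
  have hcov : T ⊆ univ.biUnion fun i => T.filter fun x => x i ∈ f i x := by
    intro x hx
    obtain ⟨i, hi⟩ := hbad x (Fintype.mem_piFinset.1 hx)
    exact mem_biUnion.2 ⟨i, mem_univ _, mem_filter.2 ⟨hx, hi⟩⟩
  have h3 : T.card * Y.card ≤ T.card * (Fintype.card W * lam) := by
    calc T.card * Y.card
        ≤ (∑ i, (T.filter fun x => x i ∈ f i x).card) * Y.card :=
          Nat.mul_le_mul_right _ ((card_le_card hcov).trans card_biUnion_le)
      _ = ∑ i, (T.filter fun x => x i ∈ f i x).card * Y.card := by rw [sum_mul]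
      _ ≤ ∑ _i : W, T.card * lam := sum_le_sum fun i _ => key i
      _ = _ := by simp; ring
  have hpos : 0 < T.card := by
    rw [hTc]
    exact pow_pos (card_pos.2 ⟨y₀, hy₀⟩) _
  exact Nat.le_of_mul_le_mul_left h3 hpos

end Pool.Agent.P.MP_b193f0_co
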