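import Pool.Agent.P.MP_b193f0_co.Basic

/-!
Encodable pools and the counting of skeletons that mostly arrive from a pool.
-/

set_option autoImplicit false
set_option maxHeartbeats 400000
set_option linter.unusedSectionVars false

namespace Pool.Agent.P.MP_b193f0_co

open Finset

variable {α : Type} [Fintype α] [DecidableEq α]

open Classical in
/-- The points that arrive in the first nonempty step of their window. -/
noncomputable def fst (t : α → ℕ) (Q : ℕ) : Finset α :=
  univ.filter fun x => ¬ NonFirst t Q (t x)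

lemma mem_fst {t : α → ℕ} {Q : ℕ} {x : α} : x ∈ fst t Q ↔ ¬ NonFirst t Q (t x) := by
  simp [fst]

/-- The pool `P t q` can be read from the windows, the history and one of `c` codes. -/
def Enc (B : Finset α → Prop) (g Q : ℕ) (P : (α → ℕ) → ℕ → Finset α) (c : ℕ) : Prop :=
  ∃ code : (α → ℕ) → ℕ, (∀ t, IsSk B g t → code t < c) ∧
    ∀ t t', IsSk B g t → IsSk B g t' → fst t Q = fst t' Q → code t = code t' →
      ∀ q, Ctx Q q t t' → P t q = P t' q

variable {B : Finset α → Prop} {g Q : ℕ}

lemma Enc.mono {P : (α → ℕ) → ℕ → Finset α} {c c' : ℕ} (h : Enc B g Q P c) (hc : c ≤ c') :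
    Enc B g Q P c' := by
  obtain ⟨code, h1, h2⟩ := h
  exact ⟨code, fun t ht => lt_of_lt_of_le (h1 t ht) hc, h2⟩

lemma Enc.biUnion {ι : Type} [DecidableEq ι] (s : Finset ι)
    {P : ι → (α → ℕ) → ℕ → Finset α} {c : ℕ} (h : ∀ i ∈ s, Enc B g Q (P i) c) :
    Enc B g Q (fun t q => s.biUnion fun i => P i t q) (c ^ s.card) := by
  induction s using Finset.induction_on with
  | empty => exact ⟨fun _ => 0, by simp, by simp⟩
  | insert i s hi ih =>
    obtain ⟨c1, h1, h2⟩ := h i (mem_insert_self _ _)
    obtain ⟨c2, h3, h4⟩ := ih fun j hj => h j (mem_insert_of_mem hj)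
    refine ⟨fun t => c1 t + c * c2 t, fun t ht => ?_, fun t t' ht ht' hf hc q hq => ?_⟩
    · rw [card_insert_of_notMem hi, pow_succ]
      have h5 := h1 t ht
      have h6 : c * (c2 t + 1) ≤ c * c ^ s.card := Nat.mul_le_mul_left _ (h3 t ht)
      simp only
      nlinarith
    · have h5 := h1 t ht
      have h6 := h1 t' ht'
      have hc0 : 0 < c := by omega
      simp only at hc
      have e1 : c1 t = c1 t' := by
        have := congrArg (· % c) hc
        simpa [Nat.add_mul_mod_self_left, Nat.mod_eq_of_lt h5, Nat.mod_eq_of_lt h6] using this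
      have e2 : c2 t = c2 t' := by
        rw [e1] at hc
        exact Nat.eq_of_mul_eq_mul_left hc0 (Nat.add_left_cancel hc)
      simp only [biUnion_insert]
      rw [h2 t t' ht ht' hf e1 q hq]
      exact congrArg _ (h4 t t' ht ht' hf e2 q hq)

/-- The number of steps before its arrival at which a point is in the pool. -/
def lab (P : (α → ℕ) → ℕ → Finset α) (t : α → ℕ) (x : α) : ℕ :=
  ((range (t x)).filter fun q => x ∈ P t q).card

lemma sum_lab_le (P : (α → ℕ) → ℕ → Finset α) {t : α → ℕ} {n : ℕ} (ht : ∀ x, t x ≤ n) :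
    ∑ x, lab P t x ≤ ∑ q ∈ range n, (P t q).card := by
  calc ∑ x, lab P t x ≤ ∑ x, ∑ q ∈ range n, if x ∈ P t q then 1 else 0 := by
        refine sum_le_sum fun x _ => ?_
        rw [← card_filter]
        exact card_le_card (filter_subset_filter _ (range_subset_range.2 (ht x)))
    _ = ∑ q ∈ range n, ∑ x, if x ∈ P t q then 1 else 0 := sum_comm
    _ = _ := by
        refine sum_congr rfl fun q _ => ?_
        rw [← card_filter]
        simp

lemma card_long_le (P : (α → ℕ) → ℕ → Finset α) {t : α → ℕ} {n : ℕ} (ht : ∀ x, t x ≤ n)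
    (L : ℕ) : (univ.filter fun x => L < lab P t x).card * (L + 1) ≤
      ∑ q ∈ range n, (P t q).card := by
  refine le_trans ?_ (sum_lab_le P ht)
  calc _ = ∑ _x ∈ univ.filter (fun x => L < lab P t x), (L + 1) := by simp
    _ ≤ ∑ x ∈ univ.filter (fun x => L < lab P t x), lab P t x :=
        sum_le_sum fun x hx => (mem_filter.1 hx).2
    _ ≤ _ := sum_le_sum_of_subset (filter_subset _ _)

open Classical in
/-- The points whose step has to be given explicitly. -/
noncomputable def expl (P : (α → ℕ) → ℕ → Finset α) (Q L : ℕ) (t : α → ℕ) : Finset α :=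
  univ.filter fun x => NonFirst t Q (t x) ∧ (x ∉ P t (t x) ∨ L < lab P t x)

lemma mem_expl {P : (α → ℕ) → ℕ → Finset α} {L : ℕ} {t : α → ℕ} {x : α} :
    x ∈ expl P Q L t ↔ NonFirst t Q (t x) ∧ (x ∉ P t (t x) ∨ L < lab P t x) := by
  simp [expl]

/-- The information that is recorded for a point. -/
noncomputable def info (P : (α → ℕ) → ℕ → Finset α) (Q L : ℕ) (t : α → ℕ) (x : α) : ℕ :=
  if x ∈ expl P Q L t then t x % Q else min (lab P t x) L

lemma decode_step {P : (α → ℕ) → ℕ → Finset α} {L q : ℕ} {t t' : α → ℕ}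
    (hc : Ctx Q q t t') (hP : ∀ q' ≤ q, P t q' = P t' q') (hf : fst t Q = fst t' Q)
    (him : univ.image t = univ.image t') (hx : expl P Q L t = expl P Q L t')
    (hi : info P Q L t = info P Q L t') {x : α} (h : t x = q) : t' x = q := by
  have h1 : q ≤ t' x := by
    have := hc.2 x
    omega
  by_contra hne
  have hlt : q < t' x := by omega
  have hdiv : q / Q = t' x / Q := by rw [← hc.1 x, h]
  by_cases hfx : x ∈ fst t Q
  · rw [hf, mem_fst] at hfx
    have : q ∈ univ.image t' := by
      rw [← him]
      exact mem_image.2 ⟨x, mem_univ _, h⟩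
    obtain ⟨x', -, hx'⟩ := mem_image.1 this
    exact hfx ⟨x', by omega, by rw [hx', hdiv]⟩
  have hfx' : x ∉ fst t' Q := hf ▸ hfx
  have hix := congrFun hi x
  by_cases hex : x ∈ expl P Q L t
  · have hex' : x ∈ expl P Q L t' := hx ▸ hex
    simp only [info, if_pos hex, if_pos hex'] at hix
    apply hne
    rw [← Nat.div_add_mod (t' x) Q, ← hix, ← hdiv, h, Nat.div_add_mod]
  · have hex' : x ∉ expl P Q L t' := hx ▸ hex
    simp only [info, if_neg hex, if_neg hex'] at hix
    rw [mem_fst, not_not] at hfx hfx'
    rw [mem_expl] at hex hex'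
    push Not at hex hex'
    have h2 := hex hfx
    have h3 := hex' hfx'
    rw [min_eq_left h2.2, min_eq_left h3.2] at hix
    have hs : insert q ((range (t x)).filter fun q => x ∈ P t q) ⊆
        (range (t' x)).filter fun q => x ∈ P t' q := by
      intro q' hq'
      simp only [mem_insert, mem_filter, mem_range] at hq' ⊢
      rcases hq' with rfl | hq'
      · exact ⟨hlt, by rw [← hP _ le_rfl, ← h]; exact h2.1⟩
      · exact ⟨by omega, by rw [← hP _ (by omega)]; exact hq'.2⟩
    have := card_le_card hs
    rw [card_insert_of_notMem (by simp [h])] at this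
    simp only [lab] at hix
    omega

lemma card_good_le (hg : 0 < g) (hQ : 0 < Q) {P : (α → ℕ) → ℕ → Finset α} {c : ℕ}
    (hE : Enc B g Q P c) {L e : ℕ} (G : Finset (α → ℕ)) (hG : ∀ t ∈ G, IsSk B g t)
    (he : ∀ t ∈ G, (expl P Q L t).card ≤ e) :
    G.card ≤ (Sk B (g * Q)).card * (2 ^ Fintype.card α * (2 ^ Fintype.card α * (c *
      (2 ^ Fintype.card α * (Q ^ e * (L + 1) ^ Fintype.card α))))) := by
  obtain ⟨code, hc1, hc2⟩ := hE
  set D : Finset (Σ _ : Finset α, (α → ℕ)) :=
    (univ.filter fun X : Finset α => X.card ≤ e).sigma fun X =>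
      Fintype.piFinset fun x => if x ∈ X then range Q else range (L + 1) with hD
  have hDc : D.card ≤ 2 ^ Fintype.card α * (Q ^ e * (L + 1) ^ Fintype.card α) := by
    rw [hD, card_sigma]
    refine (sum_le_card_nsmul _ _ (Q ^ e * (L + 1) ^ Fintype.card α) fun X hX => ?_).trans ?_
    · rw [Fintype.card_piFinset]
      simp only [apply_ite card, card_range]
      rw [prod_ite, prod_const, prod_const]
      refine Nat.mul_le_mul (Nat.pow_le_pow_right hQ ?_)
        (Nat.pow_le_pow_right (Nat.succ_pos _) (card_le_univ _))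
      simpa using (mem_filter.1 hX).2
    · rw [smul_eq_mul]
      refine Nat.mul_le_mul_right _ ((card_filter_le _ _).trans ?_)
      simp
  have h : G.card ≤ (Sk B (g * Q) ×ˢ (univ : Finset (Finset α)) ×ˢ
      (range (Fintype.card α)).powerset ×ˢ range c ×ˢ D).card := by
    refine card_le_card_of_injOn (fun t => (fun x => t x / Q, fst t Q, univ.image t, code t,
      ⟨expl P Q L t, info P Q L t⟩)) ?_ ?_
    · intro t ht
      have ht' := hG t ht
      simp only [coe_product, Set.mem_prod, mem_coe, mem_univ, mem_powerset, mem_range, hD,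
        mem_sigma, mem_filter, true_and, Fintype.mem_piFinset]
      refine ⟨(mem_Sk (Nat.mul_pos hg hQ)).2 (ht'.coarse hQ), ?_, hc1 t ht', he t ht,
        fun x => ?_⟩
      · intro q hq
        obtain ⟨x, -, rfl⟩ := mem_image.1 hq
        exact mem_range.2 (ht'.lt_card hg x)
      · rw [info]
        split_ifs
        · exact mem_range.2 (Nat.mod_lt _ hQ)
        · exact mem_range.2 (Nat.lt_succ_of_le (min_le_right _ _))
    · intro t ht t' ht' h
      simp only [Prod.mk.injEq, Sigma.mk.injEq, heq_eq_eq] at h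
      obtain ⟨e1, e2, e3, e4, e5, e6⟩ := h
      have h1 := hG t ht
      have h2 := hG t' ht'
      have key : ∀ q, Ctx Q q t t' := by
        intro q
        induction q with
        | zero => exact ⟨congrFun e1, by simp⟩
        | succ q ih =>
          have hP : ∀ q' ≤ q, P t q' = P t' q' := fun q' hq' =>
            hc2 t t' h1 h2 e2 e4 q' (ih.mono dvd_rfl hq')
          refine ⟨ih.1, fun x => ?_⟩
          have a1 := ih.2 x
          have a2 := @decode_step α _ _ Q P L q t t' ih hP e2 e3 e5 e6 x
          have a3 := @decode_step α _ _ Q P L q t' t ih.symm (fun q' hq' => (hP q' hq').symm)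
            e2.symm e3.symm e5.symm e6.symm x
          omega
      funext x
      have := (key (t x + t' x)).2 x
      omega
  refine h.trans ?_
  simp only [card_product, card_univ, Fintype.card_finset, card_powerset, card_range]
  gcongr

end Pool.Agent.P.MP_b193f0_co
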