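import Pool.Agent.P.MP_b193f0_co.Count

/-!
Pools built greedily, step by step, and emptied at the start of every window.
-/

set_option autoImplicit false
set_option maxHeartbeats 400000
set_option linter.unusedSectionVars false

namespace Pool.Agent.P.MP_b193f0_co

open Finset

variable {α : Type} [Fintype α] [DecidableEq α]

/-- A maximal family of sets from `a` that covers `lam` new points of `r` per set. -/
noncomputable def greedy (lam : ℕ) (a : Finset (Finset α)) (r p : Finset α) :
    Finset (Finset α) :=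
  if h : 0 < lam then (exists_greedy a r p h).choose else ∅

lemma greedy_spec {lam : ℕ} (h : 0 < lam) (a : Finset (Finset α)) (r p : Finset α) :
    greedy lam a r p ⊆ a ∧
      lam * (greedy lam a r p).card ≤ (((greedy lam a r p).biUnion id ∩ r) \ p).card ∧
      ∀ A ∈ a, ((A ∩ r) \ (p ∪ (greedy lam a r p).biUnion id)).card < lam := by
  rw [greedy, dif_pos h]
  exact (exists_greedy a r p h).choose_spec

/-- The pool before the announcements of step `q`. -/
noncomputable def prev (lam Q : ℕ) (a : ℕ → Finset (Finset α)) (r : ℕ → Finset α) :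
    ℕ → Finset α
  | 0 => ∅
  | q + 1 => if Q ∣ q + 1 then ∅ else
      prev lam Q a r q ∪ (greedy lam (a q) (r q) (prev lam Q a r q)).biUnion id

/-- The sets announced at step `q`. -/
noncomputable def ann (lam Q : ℕ) (a : ℕ → Finset (Finset α)) (r : ℕ → Finset α) (q : ℕ) :
    Finset (Finset α) :=
  greedy lam (a q) (r q) (prev lam Q a r q)

/-- The pool after the announcements of step `q`. -/
noncomputable def pool (lam Q : ℕ) (a : ℕ → Finset (Finset α)) (r : ℕ → Finset α) (q : ℕ) :
    Finset α :=
  prev lam Q a r q ∪ (ann lam Q a r q).biUnion id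

variable {lam Q : ℕ} {a a' : ℕ → Finset (Finset α)} {r r' : ℕ → Finset α}

lemma prev_congr (q : ℕ) (h : ∀ q' < q, a q' = a' q' ∧ r q' = r' q') :
    prev lam Q a r q = prev lam Q a' r' q := by
  induction q with
  | zero => rfl
  | succ q ih =>
    have h1 := ih fun q' hq' => h q' (by omega)
    have h2 := h q (by omega)
    simp only [prev, h1, h2.1, h2.2]

lemma pool_congr (q : ℕ) (h : ∀ q' ≤ q, a q' = a' q' ∧ r q' = r' q') :
    pool lam Q a r q = pool lam Q a' r' q := by
  have h1 : prev lam Q a r q = prev lam Q a' r' q := prev_congr q fun q' hq' => h q' hq'.le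
  have h2 := h q le_rfl
  simp only [pool, ann, h1, h2.1, h2.2]

lemma mem_prev (q : ℕ) (y : α) :
    y ∈ prev lam Q a r q ↔ ∃ q' < q, q' / Q = q / Q ∧ ∃ A ∈ ann lam Q a r q', y ∈ A := by
  induction q with
  | zero => simp [prev]
  | succ q ih =>
    rw [prev]
    split_ifs with hd
    · simp only [notMem_empty, false_iff]
      rintro ⟨q', h1, h2, -⟩
      rw [Nat.succ_div_of_dvd hd] at h2
      have : q' / Q ≤ q / Q := Nat.div_le_div_right (by omega)
      omega
    · rw [Nat.succ_div_of_not_dvd hd, mem_union, ih]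
      simp only [mem_biUnion, id]
      constructor
      · rintro (⟨q', h1, h2⟩ | h)
        · exact ⟨q', by omega, h2⟩
        · exact ⟨q, by omega, rfl, h⟩
      · rintro ⟨q', h1, h2, h3⟩
        rcases Nat.lt_succ_iff_lt_or_eq.1 h1 with h | rfl
        · exact Or.inl ⟨q', h, h2, h3⟩
        · exact Or.inr h3

lemma mem_pool (q : ℕ) (y : α) :
    y ∈ pool lam Q a r q ↔ ∃ q' ≤ q, q' / Q = q / Q ∧ ∃ A ∈ ann lam Q a r q', y ∈ A := by
  rw [pool, mem_union, mem_prev]
  simp only [mem_biUnion, id]
  constructor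
  · rintro (⟨q', h1, h2⟩ | h)
    · exact ⟨q', h1.le, h2⟩
    · exact ⟨q, le_rfl, rfl, h⟩
  · rintro ⟨q', h1, h2, h3⟩
    rcases h1.lt_or_eq with h | rfl
    · exact Or.inl ⟨q', h, h2, h3⟩
    · exact Or.inr h3

lemma ann_subset (h : 0 < lam) (q : ℕ) : ann lam Q a r q ⊆ a q := (greedy_spec h _ _ _).1

lemma card_lt_of_mem (h : 0 < lam) (q : ℕ) {A : Finset α} (hA : A ∈ a q) :
    ((A ∩ r q) \ pool lam Q a r q).card < lam := (greedy_spec h _ _ _).2.2 A hA

lemma sum_ann (h : 0 < lam) (hr : ∀ q q' y, y ∈ r q → y ∈ r q' → q / Q = q' / Q) (n : ℕ) :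
    lam * ∑ q ∈ range n, (ann lam Q a r q).card ≤ Fintype.card α := by
  have hd : ∀ q q', q < q' →
      Disjoint ((((ann lam Q a r q).biUnion id) ∩ r q) \ prev lam Q a r q)
        ((((ann lam Q a r q').biUnion id) ∩ r q') \ prev lam Q a r q') := by
    intro q q' hq
    rw [disjoint_left]
    intro y h1 h2
    simp only [mem_sdiff, mem_inter, mem_biUnion, id] at h1 h2
    exact h2.2 ((mem_prev q' y).2 ⟨q, hq, hr _ _ y h1.1.2 h2.1.2, h1.1.1⟩)
  calc _ = ∑ q ∈ range n, lam * (ann lam Q a r q).card := by rw [mul_sum]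
    _ ≤ ∑ q ∈ range n, ((((ann lam Q a r q).biUnion id) ∩ r q) \ prev lam Q a r q).card :=
        sum_le_sum fun q _ => (greedy_spec h _ _ _).2.1
    _ = ((range n).biUnion fun q =>
          (((ann lam Q a r q).biUnion id) ∩ r q) \ prev lam Q a r q).card := by
        refine (card_biUnion ?_).symm
        intro q _ q' _ hne
        rcases lt_or_gt_of_ne hne with h | h
        · exact hd q q' h
        · exact (hd q' q h).symm
    _ ≤ _ := card_le_univ _

lemma card_window_le (hQ : 0 < Q) (n w : ℕ) :
    ((range n).filter fun q => q / Q = w).card ≤ Q := by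
  have : ((range n).filter fun q => q / Q = w).card ≤ (range Q).card := by
    refine card_le_card_of_injOn (fun q => q % Q) ?_ ?_
    · intro q _
      simpa using Nat.mod_lt _ hQ
    · intro q hq q' hq' h
      simp only [coe_filter, Set.mem_ofPred_eq] at hq hq'
      simp only at h
      rw [← Nat.div_add_mod q Q, ← Nat.div_add_mod q' Q, hq.2, hq'.2, h]
  simpa using this

lemma sum_pool (h : 0 < lam) (hQ : 0 < Q) {σ : ℕ} (hσ : ∀ q, ∀ A ∈ a q, A.card ≤ σ) (n : ℕ) :
    ∑ q ∈ range n, (pool lam Q a r q).card ≤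
      Q * σ * ∑ q ∈ range n, (ann lam Q a r q).card := by
  have h1 : ∀ q ∈ range n, (pool lam Q a r q).card ≤
      ∑ q' ∈ range n, if q / Q = q' / Q then σ * (ann lam Q a r q').card else 0 := by
    intro q hq
    have hs : pool lam Q a r q ⊆
        ((range n).filter fun q' => q / Q = q' / Q).biUnion
          fun q' => (ann lam Q a r q').biUnion id := by
      intro y hy
      obtain ⟨q', h1, h2, h3⟩ := (mem_pool q y).1 hy
      simp only [mem_biUnion, mem_filter, mem_range, id] at hq ⊢
      exact ⟨q', ⟨by omega, h2.symm⟩, h3⟩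
    rw [← sum_filter]
    refine (card_le_card hs).trans (card_biUnion_le.trans (sum_le_sum fun q' _ => ?_))
    refine card_biUnion_le.trans ?_
    refine (sum_le_card_nsmul _ _ σ fun A hA => hσ q' A (ann_subset h q' hA)).trans ?_
    simp [mul_comm]
  refine (sum_le_sum h1).trans ?_
  rw [sum_comm, mul_sum]
  refine sum_le_sum fun q' _ => ?_
  rw [← sum_filter, sum_const, smul_eq_mul, mul_assoc]
  exact Nat.mul_le_mul_right _ (card_window_le hQ n _)

end Pool.Agent.P.MP_b193f0_co
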