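import Pool.Agent.P.MP_b193f0_co.Recursion

/-!
The chain lemma and the bound `R(P, Q_n) ≤ (1 + ε) n`.
-/

set_option autoImplicit false
set_option maxHeartbeats 400000
set_option linter.unusedSectionVars false

namespace Pool.Agent.P.MP_b193f0_co

open Finset

lemma isSk_of_chain {α : Type} [Fintype α] [DecidableEq α] {B : Finset α → Prop}
    (Z : ℕ → Finset α) (hZ : Monotone Z) (h0 : B ∅) (hB : ∀ i, B (Z i))
    (hcov : ∀ x, ∃ i, x ∈ Z i) : IsSk B 1 fun x => (Z (Nat.find (hcov x))).card - 1 := by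
  have hpos : ∀ x, 0 < (Z (Nat.find (hcov x))).card := fun x =>
    card_pos.2 ⟨x, Nat.find_spec (hcov x)⟩
  have hsub : ∀ x q, (Z (Nat.find (hcov x))).card - 1 < q →
      Z (Nat.find (hcov x)) ⊆ low (fun x => (Z (Nat.find (hcov x))).card - 1) q := by
    intro x q hx y hy
    have := card_le_card (hZ (Nat.find_min' (hcov y) hy))
    rw [mem_low]
    omega
  intro q
  have h1 : B (low (fun x => (Z (Nat.find (hcov x))).card - 1) q) ∧
      (low (fun x => (Z (Nat.find (hcov x))).card - 1) q).card ≤ q * 1 := by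
    rcases (low (fun x => (Z (Nat.find (hcov x))).card - 1) q).eq_empty_or_nonempty with h | h
    · rw [h]
      exact ⟨h0, by simp⟩
    · obtain ⟨x, hx, hmax⟩ := exists_max_image _ (fun x => Nat.find (hcov x)) h
      rw [mem_low] at hx
      have : low (fun x => (Z (Nat.find (hcov x))).card - 1) q = Z (Nat.find (hcov x)) :=
        Subset.antisymm (fun y hy => hZ (hmax y hy) (Nat.find_spec (hcov y))) (hsub x q hx)
      rw [this]
      have := hpos x
      exact ⟨hB _, by omega⟩
  refine ⟨h1.1, h1.2, ?_⟩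
  rintro ⟨x, hx⟩
  have h2 := card_le_card (hsub x (q + 1) (by simp only at hx; omega))
  have h3 := hpos x
  simp only at hx
  omega

lemma chain_lemma {n k : ℕ} (Bl : Finset (Fin n ⊕ Fin k) → Prop)
    (hred : ¬ ∃ g : Finset (Fin n) ↪o Finset (Fin n ⊕ Fin k), ∀ x, ¬ Bl (g x))
    (π : Equiv.Perm (Fin k)) : ∃ a : ℕ → Finset (Fin n), Monotone a ∧
      ∀ i ≤ k, Bl ((a i).disjSum (univ.filter fun y => (π y : ℕ) < i)) := by
  classical
  by_contra hcon
  apply hred
  set Ch : Finset (Fin n) → ℕ → Prop := fun A h => ∃ a : ℕ → Finset (Fin n), Monotone a ∧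
    (∀ i, a i ⊆ A) ∧ ∀ i < h, Bl ((a i).disjSum (univ.filter fun y => (π y : ℕ) < i)) with hCh
  have hex : ∀ A, ∃ h, ¬ Ch A (h + 1) := fun A =>
    ⟨k, fun ⟨a, h1, _, h3⟩ => hcon ⟨a, h1, fun i hi => h3 i (by omega)⟩⟩
  have hfind : ∀ A, Ch A (Nat.find (hex A)) := by
    intro A
    rcases h : Nat.find (hex A) with _ | j
    · exact ⟨fun _ => ∅, monotone_const, by simp, by simp⟩
    · exact not_not.1 (Nat.find_min (hex A) (by omega))
  have hmono : ∀ A A', A ⊆ A' → Nat.find (hex A) ≤ Nat.find (hex A') := by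
    intro A A' h
    refine Nat.find_min' _ fun ⟨a, h1, h2, h3⟩ => Nat.find_spec (hex A') ?_
    exact ⟨a, h1, fun i => (h2 i).trans h, h3⟩
  refine ⟨OrderEmbedding.ofMapLEIff
    (fun A => A.disjSum (univ.filter fun y => (π y : ℕ) < Nat.find (hex A))) ?_, ?_⟩
  · intro A A'
    constructor
    · intro h x hx
      simpa using h (inl_mem_disjSum.2 hx)
    · intro h
      refine disjSum_mono h fun y hy => ?_
      have := hmono A A' h
      simp only [mem_filter, mem_univ, true_and] at hy ⊢
      omega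
  · intro A hA
    obtain ⟨a, h1, h2, h3⟩ := hfind A
    refine Nat.find_spec (hex A) ⟨fun i => if i < Nat.find (hex A) then a i else A, ?_, ?_, ?_⟩
    · intro i j hij
      simp only
      split_ifs with hi hj hj
      · exact h1 hij
      · exact h2 i
      · omega
      · exact le_rfl
    · intro i
      simp only
      split_ifs
      · exact h2 i
      · exact Subset.rfl
    · intro i hi
      simp only
      split_ifs with h
      · exact h3 i h
      · have : i = Nat.find (hex A) := by omega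
        rw [this]
        exact hA

lemma factorial_le_card_Sk {n k : ℕ} (Bl : Finset (Fin n ⊕ Fin k) → Prop)
    (hred : ¬ ∃ g : Finset (Fin n) ↪o Finset (Fin n ⊕ Fin k), ∀ x, ¬ Bl (g x)) :
    k.factorial ≤ (Sk (fun S => Bl S ∨ S = ∅ ∨ S = univ) 1).card := by
  choose a ha1 ha2 using chain_lemma Bl hred
  set Z : Equiv.Perm (Fin k) → ℕ → Finset (Fin n ⊕ Fin k) := fun π i =>
    if i ≤ k then (a π i).disjSum (univ.filter fun y => (π y : ℕ) < i) else univ with hZ
  have hmono : ∀ π, Monotone (Z π) := by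
    intro π i j hij
    simp only [hZ]
    split_ifs with hi hj hj
    · refine disjSum_mono (ha1 π hij) fun y hy => ?_
      simp only [mem_filter, mem_univ, true_and] at hy ⊢
      omega
    · exact subset_univ _
    · omega
    · exact le_rfl
  have hcov : ∀ π x, ∃ i, x ∈ Z π i := fun π x => ⟨k + 1, by simp [hZ]⟩
  have hmem : ∀ π y i, Sum.inr y ∈ Z π i ↔ (π y : ℕ) < i := by
    intro π y i
    have := (π y).2
    simp only [hZ]
    split_ifs with hi
    · simp
    · simp only [mem_univ, true_iff]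
      omega
  have hfind : ∀ π y, Nat.find (hcov π (Sum.inr y)) = π y + 1 := by
    intro π y
    rw [Nat.find_eq_iff]
    simp only [hmem]
    exact ⟨by omega, fun i hi => by omega⟩
  have hlt : ∀ (π : Equiv.Perm (Fin k)) y y', π y < π y' →
      (Z π (Nat.find (hcov π (Sum.inr y)))).card - 1 <
        (Z π (Nat.find (hcov π (Sum.inr y')))).card - 1 := by
    intro π y y' h
    rw [hfind, hfind]
    have h' : (π y : ℕ) < π y' := h
    have h1 : Z π (π y + 1) ⊂ Z π (π y' + 1) := by
      refine (ssubset_iff_of_subset (hmono π (by omega))).2 ⟨Sum.inr y', ?_, ?_⟩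
      · rw [hmem]
        omega
      · rw [hmem]
        omega
    have h2 := card_lt_card h1
    have h3 : 0 < (Z π (π y + 1)).card := card_pos.2 ⟨Sum.inr y, (hmem _ _ _).2 (by omega)⟩
    omega
  have h := card_le_card_of_injOn (s := (univ : Finset (Equiv.Perm (Fin k))))
    (t := Sk (fun S => Bl S ∨ S = ∅ ∨ S = univ) 1)
    (fun π x => (Z π (Nat.find (hcov π x))).card - 1)
    (fun π _ => (mem_Sk Nat.one_pos).2 (isSk_of_chain (Z π) (hmono π) (Or.inr (Or.inl rfl))
      (fun i => by
        simp only [hZ]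
        split_ifs with hi
        · exact Or.inl (ha2 π i hi)
        · exact Or.inr (Or.inr rfl)) (hcov π)))
    (by
      intro π _ π' _ h
      have hs : StrictMono fun i => π' (π.symm i) := by
        intro i j hij
        have h1 := hlt π (π.symm i) (π.symm j) (by simpa using hij)
        have e1 := congrFun h (Sum.inr (π.symm i))
        have e2 := congrFun h (Sum.inr (π.symm j))
        simp only at e1 e2
        rw [e1, e2] at h1
        by_contra hc
        rcases (not_lt.1 hc).lt_or_eq with hc | hc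
        · have := hlt π' _ _ hc
          omega
        · have := π.symm.injective (π'.injective hc)
          omega
      have hid : ∀ i, π' (π.symm i) = i := fun i =>
        le_antisymm (hs.apply_le) (hs.le_apply)
      ext y
      have := hid (π y)
      rw [Equiv.symm_apply_apply] at this
      rw [this])
  simpa [Fintype.card_perm] using h

lemma noTower_of_free {α P : Type} [Fintype α] [DecidableEq α] [PartialOrder P] [Fintype P]
    [DecidableEq P] (Bl : Finset α → Prop)
    (hblue : ¬ ∃ f : P ↪o Finset α, ∀ x, Bl (f x)) :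
    NoTower (fun S => Bl S ∨ S = ∅ ∨ S = univ) (Option P) (Fintype.card P + 1) := by
  classical
  intro x E h1 h2 h3
  by_contra hcon
  push Not at hcon
  apply hblue
  have hmono : ∀ l l' S S', l < l' → S ⊆ S' → E l S ⊆ E l' S' := by
    intro l l' S S' hl hS
    induction hl with
    | refl => exact h3 l S' S hS
    | step _ ih => exact ih.trans (h3 _ S' S' Subset.rfl)
  set T : P → Finset P := fun a => univ.filter fun c => c ≤ a with hT
  have hTpos : ∀ a, 0 < (T a).card := fun a => card_pos.2 ⟨a, by simp [hT]⟩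
  have hin : ∀ a, x (some a) ∈ E (T a).card ((T a).image some) := fun a =>
    hmono 0 _ _ _ (hTpos a) Subset.rfl
      (h1 _ (mem_image_of_mem _ (mem_image_of_mem _ (by simp [hT]))))
  have hout : ∀ a i, i ∉ (T a).image some → x i ∉ E (T a).card ((T a).image some) := by
    intro a i hi hx
    refine hcon i (hmono _ _ _ _ (Nat.lt_succ_of_le (card_le_univ _)) ?_ hx)
    exact subset_erase.2 ⟨subset_univ _, hi⟩
  refine ⟨OrderEmbedding.ofMapLEIff (fun a => E (T a).card ((T a).image some)) ?_, ?_⟩
  · intro a c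
    constructor
    · intro h
      by_contra hac
      exact hout c (some a) (by simpa [hT] using hac) (h (hin a))
    · intro h
      rcases h.lt_or_eq with h | rfl
      · have hs : T a ⊆ T c := by
          intro d hd
          simp only [hT, mem_filter, mem_univ, true_and] at hd ⊢
          exact hd.trans h.le
        refine hmono _ _ _ _ (card_lt_card ((ssubset_iff_of_subset hs).2 ⟨c, ?_, ?_⟩))
          (image_subset_image hs)
        · simp [hT]
        · simpa [hT] using h.not_ge
      · exact le_rfl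
  · intro a
    have h4 := h2 ((T a).card - 1) ((T a).image some)
    rw [Nat.sub_add_cancel (hTpos a)] at h4
    rcases h4 with h4 | h4 | h4
    · exact h4
    · exact absurd (h4 ▸ hin a) (notMem_empty _)
    · exact absurd (h4 ▸ mem_univ _) (hout a none (by simp))

lemma pow_self_le (k : ℕ) : k ^ k ≤ 3 ^ k * k.factorial := by
  have h1 := Real.pow_div_factorial_le_exp (k : ℝ) (Nat.cast_nonneg k) k
  have h2 : Real.exp k ≤ 3 ^ k := by
    rw [← Real.exp_one_pow]
    apply pow_le_pow_left₀ (by positivity)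
    have := Real.exp_one_lt_d9
    linarith
  have h3 : (0 : ℝ) < k.factorial := by exact_mod_cast k.factorial_pos
  have h4 := h1.trans h2
  rw [div_le_iff₀ h3] at h4
  exact_mod_cast h4

lemma numeric {C E k N s : ℕ} (hE : 0 < E) (hN : N ≤ E * k) (hs : k.factorial ≤ s)
    (h : s ^ (20 * E) ≤ (C ^ N) ^ (20 * E) * N ^ (10 * N)) :
    k ≤ 9 * (C + 1) ^ (2 * E) * E := by
  rcases Nat.eq_zero_or_pos k with rfl | hk
  · simp
  have h1 : (k * k) ^ (10 * (E * k)) ≤ (9 * (C + 1) ^ (2 * E) * E * k) ^ (10 * (E * k)) := by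
    calc (k * k) ^ (10 * (E * k)) = (k ^ k) ^ (20 * E) := by
          rw [← pow_two, ← pow_mul, ← pow_mul]
          congr 1
          ring
      _ ≤ (3 ^ k * s) ^ (20 * E) :=
          Nat.pow_le_pow_left ((pow_self_le k).trans (Nat.mul_le_mul_left _ hs)) _
      _ = (3 ^ k) ^ (20 * E) * s ^ (20 * E) := mul_pow _ _ _
      _ ≤ (3 ^ k) ^ (20 * E) * ((C ^ N) ^ (20 * E) * N ^ (10 * N)) := Nat.mul_le_mul_left _ h
      _ ≤ (3 ^ k) ^ (20 * E) * (((C + 1) ^ (E * k)) ^ (20 * E) * (E * k) ^ (10 * (E * k))) := by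
          refine Nat.mul_le_mul_left _ (Nat.mul_le_mul (Nat.pow_le_pow_left ?_ _) ?_)
          · exact (Nat.pow_le_pow_left (Nat.le_succ C) N).trans
              (Nat.pow_le_pow_right (Nat.succ_pos C) hN)
          · exact (Nat.pow_le_pow_left hN _).trans
              (Nat.pow_le_pow_right (Nat.mul_pos hE hk) (by omega))
      _ = _ := by
          rw [mul_assoc (9 * (C + 1) ^ (2 * E)), mul_pow (9 * (C + 1) ^ (2 * E)), mul_pow 9,
            show (9 : ℕ) = 3 ^ 2 by norm_num, ← pow_mul, ← pow_mul, ← pow_mul, ← pow_mul,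
            show k * (20 * E) = 2 * (10 * (E * k)) by ring,
            show E * k * (20 * E) = 2 * E * (10 * (E * k)) by ring, mul_assoc (3 ^ _)]
  have h2 := (Nat.pow_le_pow_iff_left (by positivity)).1 h1
  exact Nat.le_of_mul_le_mul_right h2 hk

theorem ramsey (P : Type) [PartialOrder P] [Fintype P] (ε : ℝ) (hε : 0 < ε) :
    ∃ n₀ : ℕ, ∀ n : ℕ, n₀ ≤ n →
      ∃ N : ℕ, (N : ℝ) ≤ (1 + ε) * (n : ℝ) ∧
        ∀ c : Finset (Fin N) → Bool,
          (∃ f : P ↪o Finset (Fin N), ∀ x : P, c (f x) = true) ∨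
          (∃ g : Finset (Fin n) ↪o Finset (Fin N), ∀ x : Finset (Fin n), c (g x) = false) := by
  classical
  obtain ⟨d, hd⟩ := exists_nat_one_div_lt hε
  obtain ⟨C, N₀, h⟩ := card_Sk_bound (Option P) (Fintype.card P) (20 * (2 * (d + 1) + 1))
    (by positivity)
  obtain ⟨k₀, hk₀⟩ : ∃ k₀, k₀ = 9 * (C + 1) ^ (2 * (2 * (d + 1) + 1)) * (2 * (d + 1) + 1) :=
    ⟨_, rfl⟩
  refine ⟨N₀ + (k₀ + 1) * (d + 1), fun n hn => ⟨n + n / (d + 1), ?_, fun c => ?_⟩⟩
  · have h1 : ((n / (d + 1) : ℕ) : ℝ) ≤ (n : ℝ) / ((d + 1 : ℕ) : ℝ) := Nat.cast_div_le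
    have h2 : (n : ℝ) / ((d + 1 : ℕ) : ℝ) ≤ ε * n := by
      rw [div_eq_mul_one_div, mul_comm]
      push_cast
      exact mul_le_mul_of_nonneg_right hd.le (Nat.cast_nonneg n)
    push_cast at h1 h2 ⊢
    linarith
  · obtain ⟨k, hk⟩ : ∃ k, k = n / (d + 1) := ⟨_, rfl⟩
    have hk1 : k₀ + 1 ≤ k := hk ▸ (Nat.le_div_iff_mul_le (Nat.succ_pos d)).2
      ((Nat.le_add_left _ _).trans hn)
    have hk2 : n + k ≤ (2 * (d + 1) + 1) * k := by
      have h1 := Nat.div_add_mod n (d + 1)
      have h2 := Nat.mod_lt n (Nat.succ_pos d)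
      have h3 : (d + 1) * 1 ≤ (d + 1) * k := Nat.mul_le_mul_left _ (by omega)
      rw [← hk] at h1
      nlinarith
    revert c
    rw [← hk]
    intro c
    by_contra hcon
    rw [not_or] at hcon
    set e : Finset (Fin n ⊕ Fin k) ↪o Finset (Fin (n + k)) :=
      Finset.mapEmbedding finSumFinEquiv.toEmbedding with he
    have h1 := factorial_le_card_Sk (fun S => c (e S) = true) (by
      rintro ⟨g, hg⟩
      exact hcon.2 ⟨g.trans e, fun x => by simpa using hg x⟩)
    have h2 := h _ _ (noTower_of_free (P := P) (fun S => c (e S) = true) (by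
      rintro ⟨f, hf⟩
      exact hcon.1 ⟨f.trans e, fun x => hf x⟩)) (by simp; omega)
    have h3 := numeric (by positivity) (by simpa using hk2) h1 h2
    omega

end Pool.Agent.P.MP_b193f0_co
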