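import Pool.Agent.P.MP_b193f0_co.Main

/-!
The recursion over resolutions with explicit constants.
-/

set_option autoImplicit false
set_option maxHeartbeats 400000
set_option linter.unusedSectionVars false

namespace Pool.Agent.P.MP_b193f0_co

open Finset

lemma sizes {m L b y A K I D H M T : ℕ} (hm : 0 < m) (hb : 0 < b)
    (hy : 2 ^ (m + 2) * m * (L + 1) * b ≤ y) (hA : 3 ^ y ^ (3 * L + 12) ≤ A)
    (hK : K = (L + 1) * b) (hI : I = K ^ (L + 2) * (m * (L + 1))) (hD : D = b * I)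
    (hH : H = 2 * b * (K ^ (L + 2) * m)) (hM : M = b * (I * (2 * H * (2 ^ m * D))))
    (hT : T = 3 ^ ((2 ^ m * (2 * H) + 1) * I)) :
    8 * K ≤ A ∧ T ≤ A ∧ M + 1 ≤ A ∧ (2 ^ m * m * D + 1) * H ≤ A := by
  obtain ⟨u, hu⟩ : ∃ u, u = 2 ^ m := ⟨_, rfl⟩
  have hu2 : 2 ≤ u := by
    rw [hu]
    exact Nat.le_self_pow hm.ne' 2
  have hu0 : 0 < u := by omega
  have hy' : 4 * u * m * (L + 1) * b ≤ y := by
    rw [hu]
    refine le_trans (le_of_eq ?_) hy
    ring
  rw [← hu] at hM hT ⊢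
  have hL : 0 < L + 1 := Nat.succ_pos L
  have hy0 : 0 < y := lt_of_lt_of_le (by positivity) hy'
  have sub : ∀ a c d e f : ℕ, a ≤ 4 * u → c ≤ m → d ≤ L + 1 → e ≤ b → f = a * c * d * e →
      f ≤ y := by
    intro a c d e f h1 h2 h3 h4 h5
    rw [h5]
    refine le_trans ?_ hy'
    gcongr
  have f1 : 8 * K ≤ y := sub 8 1 (L + 1) b _ (by omega) hm le_rfl le_rfl (by rw [hK]; ring)
  have f2 : K ≤ y := by omega
  have f3 : m * (L + 1) ≤ y := sub 1 m (L + 1) 1 _ (by omega) le_rfl le_rfl hb (by ring)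
  have f4 : b ≤ y := sub 1 1 1 b _ (by omega) hm hL le_rfl (by ring)
  have f5 : 2 * b * m ≤ y := sub 2 m 1 b _ (by omega) le_rfl hL le_rfl (by ring)
  have f6 : 4 * u ≤ y := sub (4 * u) 1 1 1 _ le_rfl hm hL hb (by ring)
  have f7 : 2 * u * b ≤ y := sub (2 * u) 1 1 b _ (by omega) hm hL le_rfl (by ring)
  have f8 : 2 * u * m ≤ y := sub (2 * u) m 1 1 _ (by omega) le_rfl hL hb (by ring)
  have hK0 : 0 < K := by rw [hK]; positivity
  have hI0 : 0 < I := by rw [hI]; positivity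
  have hD0 : 0 < D := by rw [hD]; positivity
  have hH0 : 0 < H := by rw [hH]; positivity
  have gI : I ≤ y ^ (L + 3) := by
    calc I = K ^ (L + 2) * (m * (L + 1)) := hI
      _ ≤ y ^ (L + 2) * y := by gcongr
      _ = _ := by ring
  have gD : D ≤ y ^ (L + 4) := by
    calc D = b * I := hD
      _ ≤ y * y ^ (L + 3) := by gcongr
      _ = _ := by ring
  have gH : H ≤ y ^ (L + 3) := by
    calc H = K ^ (L + 2) * (2 * b * m) := by rw [hH]; ring
      _ ≤ y ^ (L + 2) * y := by gcongr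
      _ = _ := by ring
  have top : ∀ z j : ℕ, j ≤ 3 * L + 12 → z ≤ y ^ j → 3 ^ z ≤ A := fun z j hj hz =>
    (Nat.pow_le_pow_right (by norm_num) (hz.trans (Nat.pow_le_pow_right hy0 hj))).trans hA
  have lt3 : ∀ z : ℕ, z + 1 ≤ 3 ^ z := fun z => Nat.lt_pow_self (by norm_num)
  refine ⟨?_, ?_, ?_, ?_⟩
  · have h1 := top (8 * K) 1 (by omega) (by simpa using f1)
    have h2 := lt3 (8 * K)
    omega
  · rw [hT]
    refine top _ (2 * L + 7) (by omega) ?_
    have h1 : 1 ≤ u * H := Nat.mul_pos hu0 hH0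
    calc (u * (2 * H) + 1) * I ≤ (4 * u * H) * I := Nat.mul_le_mul_right _ (by nlinarith)
      _ ≤ y * y ^ (L + 3) * y ^ (L + 3) := by gcongr
      _ = _ := by ring
  · refine (lt3 M).trans (top _ (3 * L + 11) (by omega) ?_)
    calc M = 2 * u * b * I * H * D := by rw [hM]; ring
      _ ≤ y * y ^ (L + 3) * y ^ (L + 3) * y ^ (L + 4) := by gcongr
      _ = _ := by ring
  · refine le_trans (Nat.le_succ _) ((lt3 _).trans (top _ (2 * L + 8) (by omega) ?_))
    have h1 : 1 ≤ u * m * D := Nat.mul_pos (Nat.mul_pos hu0 hm) hD0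
    calc (u * m * D + 1) * H ≤ (2 * u * m * D) * H := Nat.mul_le_mul_right _ (by nlinarith)
      _ ≤ y * y ^ (L + 4) * y ^ (L + 3) := by gcongr
      _ = _ := by ring

lemma recursionX (W : Type) [Fintype W] [DecidableEq W] [Nonempty W] (L b y A : ℕ) (hb : 0 < b)
    (hy : 2 ^ (Fintype.card W + 2) * Fintype.card W * (L + 1) * b ≤ y)
    (hA : 3 ^ y ^ (3 * L + 12) ≤ A) (α : Type) [Fintype α] [DecidableEq α]
    (B : Finset α → Prop) (hB : NoTower B W (L + 1)) (g : ℕ) (hgA : A ≤ g)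
    (hgN : g ≤ Fintype.card α) :
    ∃ k < (L + 1) * b, (Sk B g).card ≤
      (Sk B (g * (A ^ b ^ k) ^ b)).card * (A ^ b ^ k) ^ (10 * Fintype.card α) := by
  obtain ⟨m, hm⟩ : ∃ m, m = Fintype.card W := ⟨_, rfl⟩
  have hm0 : 0 < m := hm ▸ Fintype.card_pos
  obtain ⟨K, hK⟩ : ∃ K, K = (L + 1) * b := ⟨_, rfl⟩
  have hK0 : 0 < K := by rw [hK]; positivity
  obtain ⟨I, hI⟩ : ∃ I, I = K ^ (L + 2) * (m * (L + 1)) := ⟨_, rfl⟩
  have hI0 : 0 < I := by rw [hI]; positivity
  obtain ⟨D, hD⟩ : ∃ D, D = b * I := ⟨_, rfl⟩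
  have hD0 : 0 < D := by rw [hD]; positivity
  obtain ⟨H, hH⟩ : ∃ H, H = 2 * b * (K ^ (L + 2) * m) := ⟨_, rfl⟩
  have hH0 : 0 < H := by rw [hH]; positivity
  obtain ⟨M, hM⟩ : ∃ M, M = b * (I * (2 * H * (2 ^ m * D))) := ⟨_, rfl⟩
  obtain ⟨T, hT⟩ : ∃ T, T = 3 ^ ((2 ^ m * (2 * H) + 1) * I) := ⟨_, rfl⟩
  obtain ⟨hA1, hA3, hA4, hA5⟩ := sizes hm0 hb (hm ▸ hy) hA hK hI hD hH hM hT
  have hA2 : 2 ≤ A := by omega
  have hg : (2 ^ m * m * D + 1) * H ≤ g := hA5.trans hgA
  rw [← hK]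
  have hg0 : 0 < g := lt_of_lt_of_le (by positivity) hg
  have hN : 0 < Fintype.card α := lt_of_lt_of_le hg0 hgN
  have hl : 2 ^ m * m * D + 1 ≤ g / H := (Nat.le_div_iff_mul_le hH0).2 hg
  have hgH : g ≤ 2 * H * (g / H) := by
    have h1 := Nat.div_add_mod g H
    have h2 := Nat.mod_lt g hH0
    have h3 : H * 1 ≤ H * (g / H) := Nat.mul_le_mul_left _ (by omega)
    nlinarith
  have hRA : ∀ k, A ≤ A ^ b ^ k := fun k => Nat.le_self_pow (by positivity) A
  obtain ⟨PP, h1, h2⟩ := exists_all_pools (K := K) (D := D) (H := 2 * H) (Λ := 2 ^ m * D)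
    (lam0 := g / H) hB hg0 (fun k => (A ^ b ^ k) ^ b) (fun k => A ^ b ^ k)
    (fun k => by positivity)
    (fun k => pow_dvd_pow_of_dvd (pow_dvd_pow A (Nat.pow_le_pow_right hb (by omega))) b)
    (fun j k hjk => by
      rw [← pow_mul, ← pow_succ]
      exact Nat.pow_le_pow_right (by omega) (Nat.pow_le_pow_right hb hjk))
    hD0 (by omega) (by omega) (by rw [hm]) (by rw [← hm]; omega) hgH
  rw [← hm, ← hI] at h1
  rw [← hm] at h2
  set G : Fin K → Finset (α → ℕ) := fun k => (Sk B g).filter fun t =>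
    b * (univ.filter fun x => k ∈ expens (fun k => (A ^ b ^ k) ^ b) PP t x).card ≤
      2 * Fintype.card α with hG
  have hcov : Sk B g ⊆ univ.biUnion G := by
    intro t ht
    have h3 := h2 t ((mem_Sk hg0).1 ht)
    obtain ⟨k, hk⟩ := exists_good_horizon (L := L) (b := b)
      (expens (fun k => (A ^ b ^ k) ^ b) PP t) hK0 hK.ge (by
        have h4 : g / H * H ≤ g := Nat.div_mul_le_self _ _
        have h5 : Fintype.card α / g * g ≤ Fintype.card α := Nat.div_mul_le_self _ _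
        have h6 : 2 * (b * ((Fintype.card α / g + 1) * (K ^ (L + 2) * (m * (g / H))))) ≤
            2 * Fintype.card α := by
          calc _ = (Fintype.card α / g + 1) * (g / H * (2 * b * (K ^ (L + 2) * m))) := by ring
            _ ≤ (Fintype.card α / g + 1) * g := by
              rw [← hH]
              exact Nat.mul_le_mul_left _ h4
            _ ≤ _ := by nlinarith
        have h7 := Nat.mul_le_mul_left b h3
        omega)
    exact mem_biUnion.2 ⟨k, mem_univ _, mem_filter.2 ⟨ht, hk⟩⟩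
  obtain ⟨k, -, hmax⟩ := exists_max_image (univ : Finset (Fin K)) (fun k => (G k).card)
    ⟨⟨0, hK0⟩, mem_univ _⟩
  refine ⟨k, k.2, ?_⟩
  have h3 : (Sk B g).card ≤ K * (G k).card := by
    refine (card_le_card hcov).trans (card_biUnion_le.trans ?_)
    simpa using sum_le_card_nsmul _ _ _ hmax
  have h4 := card_good_le hg0 (by positivity) (h1 k).1 (L := M * (A ^ b ^ (k : ℕ)) ^ 2)
    (e := 3 * Fintype.card α / b) (G k) (fun t ht => (mem_Sk hg0).1 (mem_filter.1 ht).1) (by
      intro t ht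
      have ht' := (mem_Sk hg0).1 (mem_filter.1 ht).1
      have a1 := (mem_filter.1 ht).2
      have a2 := (card_long_le (PP k) (fun x => (ht'.lt_card hg0 x).le)
        (M * (A ^ b ^ (k : ℕ)) ^ 2)).trans ((h1 k).2 t _)
      have a3 : b * (univ.filter fun x => M * (A ^ b ^ (k : ℕ)) ^ 2 < lab (PP k) t x).card ≤
          Fintype.card α := by
        refine Nat.le_of_mul_le_mul_left
          (c := I * (2 * H * (2 ^ m * D) * (A ^ b ^ (k : ℕ)) ^ 2)) ?_ (by positivity)
        calc _ = (univ.filter fun x => M * (A ^ b ^ (k : ℕ)) ^ 2 < lab (PP k) t x).card *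
              (b * (I * (2 * H * (2 ^ m * D))) * (A ^ b ^ (k : ℕ)) ^ 2) := by ring
          _ ≤ _ := by
              rw [← hM]
              exact Nat.mul_le_mul_left _ (Nat.le_succ _)
          _ ≤ _ := a2
          _ = _ := by ring
      have a4 : expl (PP k) ((A ^ b ^ (k : ℕ)) ^ b) (M * (A ^ b ^ (k : ℕ)) ^ 2) t ⊆
          (univ.filter fun x => k ∈ expens (fun k => (A ^ b ^ k) ^ b) PP t x) ∪
            univ.filter fun x => M * (A ^ b ^ (k : ℕ)) ^ 2 < lab (PP k) t x := by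
        intro x hx
        rw [mem_expl] at hx
        simp only [mem_union, mem_filter, mem_univ, true_and, mem_expens]
        tauto
      have a5 := Nat.mul_le_mul_left b ((card_le_card a4).trans (card_union_le _ _))
      rw [Nat.le_div_iff_mul_le hb, mul_comm]
      rw [mul_add] at a5
      omega)
  have h5 := factor_bound (N := Fintype.card α) (K := K) (R := A ^ b ^ (k : ℕ)) (b := b)
    (e := 3 * Fintype.card α / b) (I := I) (D := D) (T := 2 ^ m * (2 * H) + 1) (M := M) hN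
    (le_trans hA1 (hRA k)) (by positivity) (Nat.mul_div_le _ _) hD
    (le_trans (hT ▸ hA3) (hRA k)) (le_trans hA4 (hRA k))
  refine h3.trans ((Nat.mul_le_mul_left K h4).trans ?_)
  rw [mul_left_comm]
  exact Nat.mul_le_mul_left _ h5

theorem card_Sk_boundX (W : Type) [Fintype W] [DecidableEq W] [Nonempty W] (L b y A K : ℕ)
    (hb : 0 < b) (hy : 2 ^ (Fintype.card W + 2) * Fintype.card W * (L + 1) * b ≤ y)
    (hA3 : 3 ^ y ^ (3 * L + 12) ≤ A) (hK : K = (L + 1) * b)
    (α : Type) [Fintype α] [DecidableEq α]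
    (B : Finset α → Prop) (hB : NoTower B W (L + 1)) (hN : A ≤ Fintype.card α) :
    (Sk B 1).card ^ b ≤ (((A ^ b ^ K + 1) * A) ^ Fintype.card α) ^ b *
      Fintype.card α ^ (10 * Fintype.card α) := by
  have hy0 : 0 < y := lt_of_lt_of_le (by have := @Fintype.card_pos W _ _; positivity) hy
  have hA : 2 ≤ A := by
    have : 3 ^ 1 ≤ 3 ^ y ^ (3 * L + 12) :=
      Nat.pow_le_pow_right (by norm_num) (Nat.one_le_pow _ _ hy0)
    omega
  have hg₀ : 0 < A := by omega
  have h := recursionX W L b y A hb hy hA3 α B hB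
  rw [← hK] at h
  have key : ∀ d g, Fintype.card α - g = d → A ≤ g → g ≤ Fintype.card α →
      (Sk B g).card ^ b * g ^ (10 * Fintype.card α) ≤
        ((A ^ b ^ K + 1) ^ Fintype.card α) ^ b * Fintype.card α ^ (10 * Fintype.card α) := by
    intro d
    induction d using Nat.strong_induction_on with
    | _ d ih =>
      intro g hd h1 h2
      have hg : 0 < g := by omega
      by_cases hc : Fintype.card α ≤ g * A ^ b ^ K
      · refine Nat.mul_le_mul (Nat.pow_le_pow_left ((card_Sk_le B hg).trans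
          (Nat.pow_le_pow_left ?_ _)) _) (Nat.pow_le_pow_left h2 _)
        exact Nat.succ_le_succ (Nat.div_le_of_le_mul hc)
      · obtain ⟨k, hk, h3⟩ := h g h1 h2
        have h4 : (A ^ b ^ k) ^ b ≤ A ^ b ^ K := by
          rw [← pow_mul, ← pow_succ]
          exact Nat.pow_le_pow_right (by omega) (Nat.pow_le_pow_right hb hk)
        have h5 : 2 ≤ (A ^ b ^ k) ^ b :=
          hA.trans ((Nat.le_self_pow (by positivity) A).trans (Nat.le_self_pow hb.ne' _))
        have h6 := Nat.mul_le_mul_left g h4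
        have h7 := Nat.mul_le_mul_left g h5
        have h8 := ih _ (by omega) (g * (A ^ b ^ k) ^ b) rfl (by omega) (by omega)
        refine le_trans ?_ h8
        calc _ ≤ ((Sk B (g * (A ^ b ^ k) ^ b)).card *
              (A ^ b ^ k) ^ (10 * Fintype.card α)) ^ b * g ^ (10 * Fintype.card α) := by gcongr
          _ = _ := by
            rw [mul_pow, mul_pow, ← pow_mul (A ^ b ^ k), ← pow_mul (A ^ b ^ k),
              mul_comm b (10 * Fintype.card α)]
            ring
  have h1 := key _ A rfl le_rfl hN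
  have h2 := card_Sk_le_mul B Nat.one_pos hg₀
  rw [one_mul] at h2
  have h3 : 1 ≤ A ^ (10 * Fintype.card α) := Nat.one_le_pow _ _ hg₀
  calc _ ≤ ((Sk B A).card * A ^ Fintype.card α) ^ b := Nat.pow_le_pow_left h2 _
    _ = (Sk B A).card ^ b * 1 * (A ^ Fintype.card α) ^ b := by rw [mul_pow, mul_one]
    _ ≤ (Sk B A).card ^ b * A ^ (10 * Fintype.card α) * (A ^ Fintype.card α) ^ b := by gcongr
    _ ≤ ((A ^ b ^ K + 1) ^ Fintype.card α) ^ b * Fintype.card α ^ (10 * Fintype.card α) *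
        (A ^ Fintype.card α) ^ b := Nat.mul_le_mul_right _ h1
    _ = _ := by
      rw [mul_pow, mul_pow]
      ring

end Pool.Agent.P.MP_b193f0_co
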