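import Pool.Agent.P.MP_b193f0_co.Rate1

/-!
An explicit threshold for the Boolean lattice of dimension `m` against the one of dimension `n`.
-/

set_option autoImplicit false
set_option maxHeartbeats 400000
set_option linter.unusedSectionVars false

namespace Pool.Agent.P.MP_b193f0_co

open Finset

lemma noTower_of_cube {α : Type} [Fintype α] [DecidableEq α] {m : ℕ} (Bl : Finset α → Prop)
    (hblue : ¬ ∃ f : Finset (Fin m) ↪o Finset α, ∀ x, Bl (f x)) :
    NoTower (fun S => Bl S ∨ S = ∅ ∨ S = univ) (Option (Option (Fin m))) (m + 1 + 1) := by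
  classical
  intro x E h1 h2 h3
  by_contra hcon
  push Not at hcon
  apply hblue
  have hmono : ∀ l l' S S', l < l' → S ⊆ S' → E l S ⊆ E l' S' := by
    intro l l' S S' hl hS
    induction hl with
    | refl => exact h3 l S' S hS
    | step _ ih => exact ih.trans (h3 _ S' S' Subset.rfl)
  set T : Finset (Fin m) → Finset (Option (Option (Fin m))) :=
    fun a => insert (some none) (a.image fun c => some (some c)) with hT
  have hin : ∀ a i, i ∈ T a → x i ∈ E (a.card + 1) (T a) := fun a i hi =>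
    hmono 0 _ _ _ (Nat.succ_pos _) Subset.rfl (h1 _ (mem_image_of_mem _ hi))
  have hout : ∀ a i, i ∉ T a → x i ∉ E (a.card + 1) (T a) := by
    intro a i hi hx
    have hc : a.card ≤ m := by simpa using card_le_univ a
    refine hcon i (hmono _ _ _ _ (by omega) ?_ hx)
    exact subset_erase.2 ⟨subset_univ _, hi⟩
  refine ⟨OrderEmbedding.ofMapLEIff (fun a => E (a.card + 1) (T a)) ?_, ?_⟩
  · intro a c
    constructor
    · intro h i hi
      by_contra hac
      exact hout c (some (some i)) (by simpa [hT] using hac) (h (hin a _ (by simpa [hT] using hi)))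
    · intro h
      rcases h.lt_or_eq with h | rfl
      · refine hmono _ _ _ _ (Nat.succ_lt_succ (card_lt_card h)) ?_
        exact insert_subset_insert _ (image_subset_image h.le)
      · exact le_rfl
  · intro a
    rcases h2 a.card (T a) with h4 | h4 | h4
    · exact h4
    · exact absurd (h4 ▸ hin a (some none) (by simp [hT])) (notMem_empty _)
    · exact absurd (h4 ▸ mem_univ _) (hout a none (by simp [hT]))

lemma threshold {A t b D E : ℕ} (hA : 3 ≤ A) (hbA : b ≤ A) (ht : 0 < t) (hD : 0 < D)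
    (hE : E = 2 * D + 1) (hb : b = 20 * E) :
    A + (9 * ((A ^ t + 1) * A + 1) ^ (2 * E) * E + 1) * D ≤ A ^ (t * b) := by
  have hA0 : 0 < A := by omega
  have h0 : 1 ≤ A ^ t := Nat.one_le_pow _ _ hA0
  have h1 : (A ^ t + 1) * A + 1 ≤ A ^ (t + 2) := by
    have : 3 * (A ^ t * A) ≤ A * (A ^ t * A) := Nat.mul_le_mul_right _ hA
    have h2 : A ≤ A ^ t * A := Nat.le_mul_of_pos_left _ h0
    calc (A ^ t + 1) * A + 1 = A ^ t * A + A + 1 := by ring
      _ ≤ A * (A ^ t * A) := by omega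
      _ = _ := by ring
  obtain ⟨z, hz⟩ : ∃ z, z = A ^ ((t + 2) * (2 * E)) := ⟨_, rfl⟩
  have hz1 : 1 ≤ z := hz ▸ Nat.one_le_pow _ _ hA0
  have h2 : ((A ^ t + 1) * A + 1) ^ (2 * E) ≤ z := by
    rw [hz, pow_mul A]
    exact Nat.pow_le_pow_left h1 _
  have h3 : 9 * ((A ^ t + 1) * A + 1) ^ (2 * E) * E ≤ z * A := by
    calc _ = ((A ^ t + 1) * A + 1) ^ (2 * E) * (9 * E) := by ring
      _ ≤ z * A := Nat.mul_le_mul h2 (by omega)
  have h4 : A ≤ z * A := Nat.le_mul_of_pos_left _ hz1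
  have h5 : z * A ≤ z * A * A := Nat.le_mul_of_pos_right _ hA0
  have h6 : 3 * (z * A * A) ≤ A * (z * A * A) := Nat.mul_le_mul_right _ hA
  calc _ ≤ A + (z * A + 1) * A := Nat.add_le_add_left (Nat.mul_le_mul (by omega) (by omega)) _
    _ = A + z * A * A + A := by ring
    _ ≤ A * (z * A * A) := by omega
    _ = A ^ ((t + 2) * (2 * E) + 3) := by rw [hz]; ring
    _ ≤ _ := by
      refine Nat.pow_le_pow_right hA0 ?_
      have : E ≤ t * E := Nat.le_mul_of_pos_left _ ht
      have h7 : (t + 2) * (2 * E) + 3 = 2 * (t * E) + 4 * E + 3 := by ring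
      have h8 : t * b = 20 * (t * E) := by rw [hb]; ring
      omega

theorem ramsey_cube (m D b y n : ℕ) (hD : 0 < D) (hb : b = 20 * (2 * D + 1))
    (hy : y = 2 ^ (m + 4) * (m + 2) * (m + 2) * b)
    (hn : 3 ^ (y ^ (3 * m + 15) * b ^ ((m + 2) * b + 1)) ≤ n)
    (c : Finset (Fin (n + n / D)) → Bool) :
    (∃ f : Finset (Fin m) ↪o Finset (Fin (n + n / D)), ∀ x, c (f x) = true) ∨
      (∃ g : Finset (Fin n) ↪o Finset (Fin (n + n / D)), ∀ x, c (g x) = false) := by
  classical
  have hb0 : 0 < b := by omega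
  have hby : b ≤ y := hy ▸ Nat.le_mul_of_pos_left _ (by positivity)
  obtain ⟨A, hA⟩ : ∃ A, A = 3 ^ y ^ (3 * m + 15) := ⟨_, rfl⟩
  have hyA : y + 1 ≤ A := by
    have h1 : y < 3 ^ y := Nat.lt_pow_self (by norm_num)
    have h2 : 3 ^ y ≤ A := hA ▸ Nat.pow_le_pow_right (by norm_num) (Nat.le_self_pow (by omega) y)
    omega
  have h := card_Sk_boundX (Option (Option (Fin m))) (m + 1) b y A ((m + 2) * b) hb0
    (by simp [hy]) (le_of_eq (by rw [hA]; congr 2)) rfl
  obtain ⟨C, hC⟩ : ∃ C, C = (A ^ b ^ ((m + 2) * b) + 1) * A := ⟨_, rfl⟩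
  obtain ⟨k₀, hk₀⟩ : ∃ k₀, k₀ = 9 * (C + 1) ^ (2 * (2 * D + 1)) * (2 * D + 1) := ⟨_, rfl⟩
  have hn' : A + (k₀ + 1) * D ≤ n := by
    have h1 := threshold (A := A) (t := b ^ ((m + 2) * b)) (by omega) (by omega)
      (pow_pos hb0 _) hD rfl hb
    rw [← hC, ← hk₀] at h1
    refine h1.trans (le_trans (le_of_eq ?_) hn)
    rw [hA, ← pow_mul, pow_succ b]
  rw [← hC] at h
  obtain ⟨k, hk⟩ : ∃ k, k = n / D := ⟨_, rfl⟩
  have hk1 : k₀ + 1 ≤ k := hk ▸ (Nat.le_div_iff_mul_le hD).2 ((Nat.le_add_left _ _).trans hn')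
  have hk2 : n + k ≤ (2 * D + 1) * k := by
    have h1 := Nat.div_add_mod n D
    have h2 := Nat.mod_lt n hD
    have h3 : D * 1 ≤ D * k := Nat.mul_le_mul_left _ (by omega)
    rw [← hk] at h1
    nlinarith
  revert c
  rw [← hk]
  intro c
  by_contra hcon
  rw [not_or] at hcon
  set e : Finset (Fin n ⊕ Fin k) ↪o Finset (Fin (n + k)) :=
    Finset.mapEmbedding finSumFinEquiv.toEmbedding with he
  have h1 := factorial_le_card_Sk (fun S => c (e S) = true) (by
    rintro ⟨g, hg⟩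
    exact hcon.2 ⟨g.trans e, fun x => by simpa using hg x⟩)
  have h2 := h _ _ (noTower_of_cube (m := m) (fun S => c (e S) = true) (by
    rintro ⟨f, hf⟩
    exact hcon.1 ⟨f.trans e, fun x => hf x⟩)) (by simp; omega)
  rw [hb] at h2
  have h3 := numeric (by positivity) (by simpa using hk2) h1 h2
  omega

end Pool.Agent.P.MP_b193f0_co
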