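import Pool.Agent.P.MP_b193f0_co.Rate2

/-!
Inverting the threshold.
-/

set_option autoImplicit false
set_option maxHeartbeats 400000
set_option linter.unusedSectionVars false

namespace Pool.Agent.P.MP_b193f0_co

open Finset Real

lemma log_le_sqrt' {x : ℝ} (hx : 0 < x) : log x ≤ √x := by
  have h0 : 0 < √x := sqrt_pos.2 hx
  have h1 : log x = 2 * log √x := by
    rw [log_sqrt hx.le]
    ring
  have h2 : log √x = log 2 + log (√x / 2) := by
    rw [log_div h0.ne' (by norm_num)]
    ring
  have h3 := log_le_sub_one_of_pos (x := √x / 2) (by positivity)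
  have h4 := log_two_lt_d9
  linarith

lemma invert (m n : ℕ) (hn : 60000 * ((m : ℝ) + 2) ^ 2 ≤ log (log n)) :
    ∃ D : ℕ, 0 < D ∧
      3 ^ ((2 ^ (m + 4) * (m + 2) * (m + 2) * (20 * (2 * D + 1))) ^ (3 * m + 15) *
        (20 * (2 * D + 1)) ^ ((m + 2) * (20 * (2 * D + 1)) + 1)) ≤ n ∧
      ((n / D : ℕ) : ℝ) ≤ 480 * ((m : ℝ) + 2) * n * log (log (log n)) / log (log n) := by
  obtain ⟨x, hx⟩ : ∃ x, x = log (log (n : ℝ)) := ⟨_, rfl⟩
  obtain ⟨s, hs⟩ : ∃ s : ℝ, s = (m : ℝ) + 2 := ⟨_, rfl⟩
  have hm0 : (0 : ℝ) ≤ m := Nat.cast_nonneg m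
  have hs2 : 2 ≤ s := by linarith
  rw [← hx, ← hs] at hn
  rw [← hx, ← hs]
  have hss : 4 ≤ s ^ 2 := by nlinarith
  have hx0 : 0 < x := by linarith
  have hl1 : 1 ≤ log x := by
    rw [le_log_iff_exp_le hx0]
    have := exp_one_lt_d9
    linarith
  have hl2 := log_le_sqrt' hx0
  have hsq : 240 * s ≤ √x := by
    apply le_sqrt_of_sq_le
    nlinarith
  have hden : 0 < 240 * s * log x := by positivity
  obtain ⟨u, hu⟩ : ∃ u, u = x / (240 * s * log x) := ⟨_, rfl⟩
  have hux : u * (240 * s * log x) = x := by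
    rw [hu]
    exact div_mul_cancel₀ _ hden.ne'
  have hu1 : 1 ≤ u := by
    rw [hu, le_div_iff₀ hden, one_mul]
    calc 240 * s * log x ≤ √x * √x := by gcongr
      _ = x := mul_self_sqrt hx0.le
  obtain ⟨D, hD⟩ : ∃ D, D = ⌊u⌋₊ := ⟨_, rfl⟩
  have hD0 : 0 < D := hD ▸ Nat.floor_pos.2 hu1
  have hD1 : (1 : ℝ) ≤ D := by exact_mod_cast hD0
  have hDu : (D : ℝ) ≤ u := hD ▸ Nat.floor_le (by linarith)
  have huD : u ≤ 2 * D := by
    have := Nat.lt_floor_add_one u
    rw [← hD] at this
    linarith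
  refine ⟨D, hD0, ?_, ?_⟩
  · obtain ⟨b, hb⟩ : ∃ b : ℕ, b = 20 * (2 * D + 1) := ⟨_, rfl⟩
    rw [← hb]
    have hbR : (b : ℝ) = 20 * (2 * D + 1) := by
      rw [hb]
      push_cast
      ring
    have hb60 : (60 : ℝ) ≤ b := by linarith
    have hbu : (b : ℝ) ≤ 60 * u := by linarith
    have hb0 : (0 : ℝ) < b := by linarith
    have hsl : 2 ≤ s * log x := by nlinarith
    have hbx : 4 * (b * (s * log x)) ≤ x := by
      have : (b : ℝ) * (s * log x) ≤ 60 * u * (s * log x) := by gcongr
      linarith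
    have hbx' : (b : ℝ) ≤ x := by nlinarith
    have hlb : log b ≤ log x := log_le_log hb0 hbx'
    have hlb0 : 0 ≤ log b := log_nonneg (by linarith)
    have hsb : s * b * log b ≤ x / 4 := by
      have : s * b * log b ≤ s * b * log x := by gcongr
      linarith
    obtain ⟨y, hy⟩ : ∃ y : ℕ, y = 2 ^ (m + 4) * (m + 2) * (m + 2) * b := ⟨_, rfl⟩
    rw [← hy]
    have hyR : (y : ℝ) = 2 ^ (m + 4) * s * s * b := by
      rw [hy, hs]
      push_cast
      ring
    have hy0 : (0 : ℝ) < y := by
      rw [hyR]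
      positivity
    have hly : log y ≤ 4 * s + log b := by
      have h1 := log_le_sub_one_of_pos (x := s) (by linarith)
      have h2 := log_two_lt_d9
      have h3 : log (y : ℝ) = ((m : ℝ) + 4) * log 2 + log s + log s + log b := by
        rw [hyR, log_mul (by positivity) hb0.ne', log_mul (by positivity) (by linarith),
          log_mul (by positivity) (by linarith), log_pow]
        push_cast
        ring
      nlinarith
    have hln0 : 0 < log (n : ℝ) := by
      rcases (log_natCast_nonneg n).lt_or_eq with h | h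
      · exact h
      · rw [← h, log_zero] at hx
        linarith
    have hn0 : (0 : ℝ) < n := by
      rcases (Nat.cast_nonneg (α := ℝ) n).lt_or_eq with h | h
      · exact h
      · rw [← h, log_zero] at hln0
        linarith
    have hex : exp x = log n := by rw [hx, exp_log hln0]
    have key : 1 + ((3 * m + 15 : ℕ) * log y + (((m + 2) * b + 1 : ℕ) : ℝ) * log b) ≤ x := by
      have e1 : ((3 * m + 15 : ℕ) : ℝ) ≤ 8 * s := by
        push_cast
        linarith
      have e2 : (((m + 2) * b + 1 : ℕ) : ℝ) = s * b + 1 := by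
        rw [hs]
        push_cast
        ring
      have e3 : ((3 * m + 15 : ℕ) : ℝ) * log y ≤ 8 * s * (4 * s + log b) :=
        mul_le_mul e1 hly (log_natCast_nonneg y) (by linarith)
      have e4 : (8 * s + 1) * log b ≤ s * b * log b := by
        refine mul_le_mul_of_nonneg_right ?_ hlb0
        nlinarith
      rw [e2]
      nlinarith
    have h3 : log 3 ≤ exp 1 := by
      have h1 := log_le_sub_one_of_pos (x := 3) (by norm_num)
      have h2 := exp_one_gt_d9
      linarith
    have hfin : ((y ^ (3 * m + 15) * b ^ ((m + 2) * b + 1) : ℕ) : ℝ) * log 3 ≤ log n := by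
      rw [← hex]
      refine le_trans ?_ (exp_le_exp.2 key)
      rw [exp_add, exp_add, exp_nat_mul, exp_nat_mul, exp_log hy0, exp_log hb0, mul_comm]
      push_cast
      gcongr
    rw [← log_pow, log_le_log_iff (by positivity) hn0] at hfin
    exact_mod_cast hfin
  · have hn0 : (0 : ℝ) ≤ n := Nat.cast_nonneg n
    refine Nat.cast_div_le.trans ?_
    rw [div_le_div_iff₀ (by linarith) hx0]
    calc (n : ℝ) * x = n * (240 * s * log x) * u := by rw [mul_assoc, mul_comm _ u, hux]
      _ ≤ n * (240 * s * log x) * (2 * D) := by gcongr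
      _ = _ := by ring

lemma exists_cube_emb (P : Type) [PartialOrder P] [Fintype P] :
    Nonempty (P ↪o Finset (Fin (Fintype.card P))) := by
  classical
  refine ⟨OrderEmbedding.ofMapLEIff
    (fun a => univ.filter fun i => (Fintype.equivFin P).symm i ≤ a) fun a c => ⟨fun h => ?_,
      fun h i hi => ?_⟩⟩
  · simpa using h (show Fintype.equivFin P a ∈ _ by simp)
  · simp only [mem_filter, mem_univ, true_and] at hi ⊢
    exact hi.trans h

end Pool.Agent.P.MP_b193f0_co
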