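import Pool.Agent.P.MP_b193f0_co.Step

/-!
The recursion over resolutions: a family without towers has few chains.
-/

set_option autoImplicit false
set_option maxHeartbeats 400000
set_option linter.unusedSectionVars false

namespace Pool.Agent.P.MP_b193f0_co

open Finset

lemma exists_good_horizon {α : Type} [Fintype α] [DecidableEq α] {K L b : ℕ}
    (E : α → Finset (Fin K)) (hK : 0 < K) (hKL : (L + 1) * b ≤ K)
    (h : b * (univ.filter fun x => L + 2 ≤ (E x).card).card ≤ Fintype.card α) :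
    ∃ k : Fin K, b * (univ.filter fun x => k ∈ E x).card ≤ 2 * Fintype.card α := by
  by_contra hcon
  push Not at hcon
  have h1 : ∑ k : Fin K, (univ.filter fun x => k ∈ E x).card = ∑ x, (E x).card := by
    simp only [card_filter]
    rw [sum_comm]
    refine sum_congr rfl fun x _ => ?_
    rw [← card_filter]
    simp
  have h2 : ∑ x, (E x).card ≤ (L + 1) * Fintype.card α +
      K * (univ.filter fun x => L + 2 ≤ (E x).card).card := by
    calc ∑ x, (E x).card ≤ ∑ x, ((L + 1) + K * if L + 2 ≤ (E x).card then 1 else 0) := by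
          refine sum_le_sum fun x _ => ?_
          have : (E x).card ≤ K := by simpa using card_le_univ (E x)
          split_ifs <;> omega
      _ = _ := by
          rw [sum_add_distrib, ← mul_sum, ← card_filter]
          simp [mul_comm]
  have h3 : K * (2 * Fintype.card α + 1) ≤
      b * ∑ k : Fin K, (univ.filter fun x => k ∈ E x).card := by
    rw [mul_sum]
    calc K * (2 * Fintype.card α + 1) = ∑ _k : Fin K, (2 * Fintype.card α + 1) := by simp
      _ ≤ _ := sum_le_sum fun k _ => hcon k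
  rw [h1] at h3
  have h4 := Nat.mul_le_mul_left b h2
  have h5 := Nat.mul_le_mul_left K h
  have h6 := Nat.mul_le_mul_right (Fintype.card α) hKL
  nlinarith

lemma factor_bound {N K R b e I D T M : ℕ} (hN : 0 < N) (hR : 8 * K ≤ R) (hR1 : 0 < R)
    (he : b * e ≤ 3 * N) (hD : D = b * I) (hT : 3 ^ (T * I) ≤ R) (hM : M + 1 ≤ R) :
    K * (2 ^ N * (2 ^ N * (((R ^ b) ^ (N / D) * 3 ^ (T * N)) ^ I *
      (2 ^ N * ((R ^ b) ^ e * (M * R ^ 2 + 1) ^ N))))) ≤ R ^ (10 * N) := by
  have a1 : K * (2 ^ N * (2 ^ N * 2 ^ N)) ≤ R ^ N := by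
    calc K * (2 ^ N * (2 ^ N * 2 ^ N)) = K * 8 ^ N := by
          rw [← mul_pow, ← mul_pow]
          norm_num
      _ ≤ K ^ N * 8 ^ N := Nat.mul_le_mul_right _ (Nat.le_self_pow hN.ne' K)
      _ = (8 * K) ^ N := by rw [mul_pow, mul_comm]
      _ ≤ R ^ N := Nat.pow_le_pow_left hR N
  have a2 : ((R ^ b) ^ (N / D)) ^ I ≤ R ^ N := by
    rw [← pow_mul, ← pow_mul]
    refine Nat.pow_le_pow_right hR1 ?_
    calc b * (N / D * I) = N / D * D := by rw [hD]; ring
      _ ≤ N := Nat.div_mul_le_self _ _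
  have a3 : (3 ^ (T * N)) ^ I ≤ R ^ N := by
    calc (3 ^ (T * N)) ^ I = (3 ^ (T * I)) ^ N := by
          rw [← pow_mul, ← pow_mul]
          congr 1
          ring
      _ ≤ R ^ N := Nat.pow_le_pow_left hT N
  have a4 : (R ^ b) ^ e ≤ R ^ (3 * N) := by
    rw [← pow_mul]
    exact Nat.pow_le_pow_right hR1 he
  have a5 : (M * R ^ 2 + 1) ^ N ≤ R ^ (3 * N) := by
    rw [pow_mul]
    refine Nat.pow_le_pow_left ?_ N
    have : 1 ≤ R ^ 2 := Nat.one_le_pow _ _ hR1
    calc M * R ^ 2 + 1 ≤ (M + 1) * R ^ 2 := by nlinarith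
      _ ≤ R * R ^ 2 := Nat.mul_le_mul_right _ hM
      _ = R ^ 3 := by ring
  calc _ = K * (2 ^ N * (2 ^ N * 2 ^ N)) * (((R ^ b) ^ (N / D)) ^ I * ((3 ^ (T * N)) ^ I *
        ((R ^ b) ^ e * (M * R ^ 2 + 1) ^ N))) := by
        rw [mul_pow]
        ring
    _ ≤ R ^ N * (R ^ N * (R ^ N * (R ^ (3 * N) * R ^ (3 * N)))) := by gcongr
    _ = R ^ (9 * N) := by ring
    _ ≤ _ := Nat.pow_le_pow_right hR1 (by omega)

lemma recursion (W : Type) [Fintype W] [DecidableEq W] [Nonempty W] (L b : ℕ) (hb : 0 < b) :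
    ∃ g₀ K A : ℕ, 0 < g₀ ∧ 2 ≤ A ∧ ∀ (α : Type) [Fintype α] [DecidableEq α]
      (B : Finset α → Prop), NoTower B W (L + 1) → ∀ g, g₀ ≤ g → g ≤ Fintype.card α →
        ∃ k < K, (Sk B g).card ≤
          (Sk B (g * (A ^ b ^ k) ^ b)).card * (A ^ b ^ k) ^ (10 * Fintype.card α) := by
  obtain ⟨m, hm⟩ : ∃ m, m = Fintype.card W := ⟨_, rfl⟩
  have hm0 : 0 < m := hm ▸ Fintype.card_pos
  obtain ⟨K, hK⟩ : ∃ K, K = (L + 1) * b := ⟨_, rfl⟩
  have hK0 : 0 < K := by rw [hK]; positivity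
  obtain ⟨I, hI⟩ : ∃ I, I = K ^ (L + 2) * (m * (L + 1)) := ⟨_, rfl⟩
  have hI0 : 0 < I := by rw [hI]; positivity
  obtain ⟨D, hD⟩ : ∃ D, D = b * I := ⟨_, rfl⟩
  have hD0 : 0 < D := by rw [hD]; positivity
  obtain ⟨H, hH⟩ : ∃ H, H = 2 * b * (K ^ (L + 2) * m) := ⟨_, rfl⟩
  have hH0 : 0 < H := by rw [hH]; positivity
  obtain ⟨M, hM⟩ : ∃ M, M = b * (I * (2 * H * (2 ^ m * D))) := ⟨_, rfl⟩
  obtain ⟨T, hT⟩ : ∃ T, T = 3 ^ ((2 ^ m * (2 * H) + 1) * I) := ⟨_, rfl⟩
  obtain ⟨A, hA1, hA3, hA4⟩ : ∃ A, 8 * K ≤ A ∧ T ≤ A ∧ M + 1 ≤ A :=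
    ⟨8 * K + T + (M + 1), by omega, by omega, by omega⟩
  have hA2 : 2 ≤ A := by omega
  refine ⟨(2 ^ m * m * D + 1) * H, K, A, by positivity, hA2, ?_⟩
  intro α _ _ B hB g hg hgN
  have hg0 : 0 < g := lt_of_lt_of_le (by positivity) hg
  have hN : 0 < Fintype.card α := lt_of_lt_of_le hg0 hgN
  have hl : 2 ^ m * m * D + 1 ≤ g / H := (Nat.le_div_iff_mul_le hH0).2 hg
  have hgH : g ≤ 2 * H * (g / H) := by
    have h1 := Nat.div_add_mod g H
    have h2 := Nat.mod_lt g hH0
    have h3 : H * 1 ≤ H * (g / H) := Nat.mul_le_mul_left _ (by omega)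
    nlinarith
  have hRA : ∀ k, A ≤ A ^ b ^ k := fun k => Nat.le_self_pow (by positivity) A
  obtain ⟨PP, h1, h2⟩ := exists_all_pools (K := K) (D := D) (H := 2 * H) (Λ := 2 ^ m * D)
    (lam0 := g / H) hB hg0 (fun k => (A ^ b ^ k) ^ b) (fun k => A ^ b ^ k)
    (fun k => by positivity)
    (fun k => pow_dvd_pow_of_dvd (pow_dvd_pow A (Nat.pow_le_pow_right hb (by omega))) b)
    (fun j k hjk => by
      rw [← pow_mul, ← pow_succ]
      exact Nat.pow_le_pow_right (by omega) (Nat.pow_le_pow_right hb hjk))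
    hD0 (by omega) (by omega) (by rw [hm]) (by rw [← hm]; omega) hgH
  rw [← hm, ← hI] at h1
  rw [← hm] at h2
  set G : Fin K → Finset (α → ℕ) := fun k => (Sk B g).filter fun t =>
    b * (univ.filter fun x => k ∈ expens (fun k => (A ^ b ^ k) ^ b) PP t x).card ≤
      2 * Fintype.card α with hG
  have hcov : Sk B g ⊆ univ.biUnion G := by
    intro t ht
    have h3 := h2 t ((mem_Sk hg0).1 ht)
    obtain ⟨k, hk⟩ := exists_good_horizon (L := L) (b := b)
      (expens (fun k => (A ^ b ^ k) ^ b) PP t) hK0 hK.ge (by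
        have h4 : g / H * H ≤ g := Nat.div_mul_le_self _ _
        have h5 : Fintype.card α / g * g ≤ Fintype.card α := Nat.div_mul_le_self _ _
        have h6 : 2 * (b * ((Fintype.card α / g + 1) * (K ^ (L + 2) * (m * (g / H))))) ≤
            2 * Fintype.card α := by
          calc _ = (Fintype.card α / g + 1) * (g / H * (2 * b * (K ^ (L + 2) * m))) := by ring
            _ ≤ (Fintype.card α / g + 1) * g := by
              rw [← hH]
              exact Nat.mul_le_mul_left _ h4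
            _ ≤ _ := by nlinarith
        have h7 := Nat.mul_le_mul_left b h3
        omega)
    exact mem_biUnion.2 ⟨k, mem_univ _, mem_filter.2 ⟨ht, hk⟩⟩
  obtain ⟨k, -, hmax⟩ := exists_max_image (univ : Finset (Fin K)) (fun k => (G k).card)
    ⟨⟨0, hK0⟩, mem_univ _⟩
  refine ⟨k, k.2, ?_⟩
  have h3 : (Sk B g).card ≤ K * (G k).card := by
    refine (card_le_card hcov).trans (card_biUnion_le.trans ?_)
    simpa using sum_le_card_nsmul _ _ _ hmax
  have h4 := card_good_le hg0 (by positivity) (h1 k).1 (L := M * (A ^ b ^ (k : ℕ)) ^ 2)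
    (e := 3 * Fintype.card α / b) (G k) (fun t ht => (mem_Sk hg0).1 (mem_filter.1 ht).1) (by
      intro t ht
      have ht' := (mem_Sk hg0).1 (mem_filter.1 ht).1
      have a1 := (mem_filter.1 ht).2
      have a2 := (card_long_le (PP k) (fun x => (ht'.lt_card hg0 x).le)
        (M * (A ^ b ^ (k : ℕ)) ^ 2)).trans ((h1 k).2 t _)
      have a3 : b * (univ.filter fun x => M * (A ^ b ^ (k : ℕ)) ^ 2 < lab (PP k) t x).card ≤
          Fintype.card α := by
        refine Nat.le_of_mul_le_mul_left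
          (c := I * (2 * H * (2 ^ m * D) * (A ^ b ^ (k : ℕ)) ^ 2)) ?_ (by positivity)
        calc _ = (univ.filter fun x => M * (A ^ b ^ (k : ℕ)) ^ 2 < lab (PP k) t x).card *
              (b * (I * (2 * H * (2 ^ m * D))) * (A ^ b ^ (k : ℕ)) ^ 2) := by ring
          _ ≤ _ := by
              rw [← hM]
              exact Nat.mul_le_mul_left _ (Nat.le_succ _)
          _ ≤ _ := a2
          _ = _ := by ring
      have a4 : expl (PP k) ((A ^ b ^ (k : ℕ)) ^ b) (M * (A ^ b ^ (k : ℕ)) ^ 2) t ⊆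
          (univ.filter fun x => k ∈ expens (fun k => (A ^ b ^ k) ^ b) PP t x) ∪
            univ.filter fun x => M * (A ^ b ^ (k : ℕ)) ^ 2 < lab (PP k) t x := by
        intro x hx
        rw [mem_expl] at hx
        simp only [mem_union, mem_filter, mem_univ, true_and, mem_expens]
        tauto
      have a5 := Nat.mul_le_mul_left b ((card_le_card a4).trans (card_union_le _ _))
      rw [Nat.le_div_iff_mul_le hb, mul_comm]
      rw [mul_add] at a5
      omega)
  have h5 := factor_bound (N := Fintype.card α) (K := K) (R := A ^ b ^ (k : ℕ)) (b := b)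
    (e := 3 * Fintype.card α / b) (I := I) (D := D) (T := 2 ^ m * (2 * H) + 1) (M := M) hN
    (le_trans hA1 (hRA k)) (by positivity) (Nat.mul_div_le _ _) hD
    (le_trans (hT ▸ hA3) (hRA k)) (le_trans hA4 (hRA k))
  refine h3.trans ((Nat.mul_le_mul_left K h4).trans ?_)
  rw [mul_left_comm]
  exact Nat.mul_le_mul_left _ h5

/-- A family without towers has at most `C ^ N * N ^ (10 N / b)` chains. -/
theorem card_Sk_bound (W : Type) [Fintype W] [DecidableEq W] [Nonempty W] (L b : ℕ)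
    (hb : 0 < b) : ∃ C N₀ : ℕ, ∀ (α : Type) [Fintype α] [DecidableEq α]
      (B : Finset α → Prop), NoTower B W (L + 1) → N₀ ≤ Fintype.card α →
        (Sk B 1).card ^ b ≤
          (C ^ Fintype.card α) ^ b * Fintype.card α ^ (10 * Fintype.card α) := by
  obtain ⟨g₀, K, A, hg₀, hA, h⟩ := recursion W L b hb
  refine ⟨(A ^ b ^ K + 1) * g₀, g₀, fun α _ _ B hB hN => ?_⟩
  have key : ∀ d g, Fintype.card α - g = d → g₀ ≤ g → g ≤ Fintype.card α →
      (Sk B g).card ^ b * g ^ (10 * Fintype.card α) ≤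
        ((A ^ b ^ K + 1) ^ Fintype.card α) ^ b * Fintype.card α ^ (10 * Fintype.card α) := by
    intro d
    induction d using Nat.strong_induction_on with
    | _ d ih =>
      intro g hd h1 h2
      have hg : 0 < g := by omega
      by_cases hc : Fintype.card α ≤ g * A ^ b ^ K
      · refine Nat.mul_le_mul (Nat.pow_le_pow_left ((card_Sk_le B hg).trans
          (Nat.pow_le_pow_left ?_ _)) _) (Nat.pow_le_pow_left h2 _)
        exact Nat.succ_le_succ (Nat.div_le_of_le_mul hc)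
      · obtain ⟨k, hk, h3⟩ := h α B hB g h1 h2
        have h4 : (A ^ b ^ k) ^ b ≤ A ^ b ^ K := by
          rw [← pow_mul, ← pow_succ]
          exact Nat.pow_le_pow_right (by omega) (Nat.pow_le_pow_right hb hk)
        have h5 : 2 ≤ (A ^ b ^ k) ^ b :=
          hA.trans ((Nat.le_self_pow (by positivity) A).trans (Nat.le_self_pow hb.ne' _))
        have h6 := Nat.mul_le_mul_left g h4
        have h7 := Nat.mul_le_mul_left g h5
        have h8 := ih _ (by omega) (g * (A ^ b ^ k) ^ b) rfl (by omega) (by omega)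
        refine le_trans ?_ h8
        calc _ ≤ ((Sk B (g * (A ^ b ^ k) ^ b)).card *
              (A ^ b ^ k) ^ (10 * Fintype.card α)) ^ b * g ^ (10 * Fintype.card α) := by gcongr
          _ = _ := by
            rw [mul_pow, mul_pow, ← pow_mul (A ^ b ^ k), ← pow_mul (A ^ b ^ k),
              mul_comm b (10 * Fintype.card α)]
            ring
  have h1 := key _ g₀ rfl le_rfl hN
  have h2 := card_Sk_le_mul B Nat.one_pos hg₀
  rw [one_mul] at h2
  have h3 : 1 ≤ g₀ ^ (10 * Fintype.card α) := Nat.one_le_pow _ _ hg₀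
  calc _ ≤ ((Sk B g₀).card * g₀ ^ Fintype.card α) ^ b := Nat.pow_le_pow_left h2 _
    _ = (Sk B g₀).card ^ b * 1 * (g₀ ^ Fintype.card α) ^ b := by rw [mul_pow, mul_one]
    _ ≤ (Sk B g₀).card ^ b * g₀ ^ (10 * Fintype.card α) * (g₀ ^ Fintype.card α) ^ b := by gcongr
    _ ≤ ((A ^ b ^ K + 1) ^ Fintype.card α) ^ b * Fintype.card α ^ (10 * Fintype.card α) *
        (g₀ ^ Fintype.card α) ^ b := Nat.mul_le_mul_right _ h1
    _ = _ := by
      rw [mul_pow, mul_pow]
      ring

end Pool.Agent.P.MP_b193f0_co
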