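import Pool.Agent.P.MP_b193f0_co.Enc
import Pool.Agent.P.MP_b193f0_co.Greedy

/-!
One stage of the cascade: the pool built from a family of sets with short descriptions.
-/

set_option autoImplicit false
set_option maxHeartbeats 400000
set_option linter.unusedSectionVars false

namespace Pool.Agent.P.MP_b193f0_co

open Finset

variable {α : Type} [Fintype α] [DecidableEq α]
variable {W : Type} [Fintype W] [DecidableEq W]

/-- A skeleton, a step that is not first in its window, and a tuple of points of this step. -/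
def Val (B : Finset α → Prop) (g Q₁ : ℕ) (t : α → ℕ) (q : ℕ) (x : W → α) : Prop :=
  IsSk B g t ∧ NonFirst t Q₁ q ∧ ∀ i, t (x i) = q

open Classical in
/-- The sets that the family `Ψ` can produce in the context of `t` at step `q`. -/
noncomputable def adm (B : Finset α → Prop) (g Q₁ Qh : ℕ)
    (Ψ : (α → ℕ) → ℕ → (W → α) → Finset α) (t : α → ℕ) (q : ℕ) : Finset (Finset α) :=
  univ.filter fun A => ∃ t' x', Val B g Q₁ t' q x' ∧ Ctx Qh q t t' ∧ A = Ψ t' q x'

/-- The points of the window of `q` that have not arrived before step `q`. -/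
def rem (Q : ℕ) (t : α → ℕ) (q : ℕ) : Finset α := up t Q q \ low t q

/-- The pool of a stage. -/
noncomputable def spool (B : Finset α → Prop) (g Q₁ lam Qh Qs : ℕ)
    (Ψ : (α → ℕ) → ℕ → (W → α) → Finset α) (t : α → ℕ) (q : ℕ) : Finset α :=
  pool lam Qs (adm B g Q₁ Qh Ψ t) (rem Qs t) q

variable {B : Finset α → Prop} {g Q₁ lam Qh Qs : ℕ} {Ψ : (α → ℕ) → ℕ → (W → α) → Finset α}

lemma mem_adm {t : α → ℕ} {q : ℕ} {A : Finset α} : A ∈ adm B g Q₁ Qh Ψ t q ↔
    ∃ t' x', Val B g Q₁ t' q x' ∧ Ctx Qh q t t' ∧ A = Ψ t' q x' := by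
  simp [adm]

lemma mem_rem {Q q : ℕ} {t : α → ℕ} {y : α} :
    y ∈ rem Q t q ↔ t y / Q = q / Q ∧ q ≤ t y := by
  simp only [rem, mem_sdiff, mem_up, mem_low, not_lt]
  exact ⟨fun h => ⟨le_antisymm h.1 (Nat.div_le_div_right h.2), h.2⟩, fun h => ⟨h.1.le, h.2⟩⟩

lemma Ctx.rem_eq {Q q : ℕ} {t t' : α → ℕ} (h : Ctx Q q t t') : rem Q t q = rem Q t' q := by
  rw [rem, rem, h.low_eq, h.up_eq]

lemma Ctx.adm_eq {q : ℕ} {t t' : α → ℕ} (h : Ctx Qh q t t') :
    adm B g Q₁ Qh Ψ t q = adm B g Q₁ Qh Ψ t' q := by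
  ext A
  simp only [mem_adm]
  exact ⟨fun ⟨s, x, h1, h2, h3⟩ => ⟨s, x, h1, h.symm.trans h2, h3⟩,
    fun ⟨s, x, h1, h2, h3⟩ => ⟨s, x, h1, h.trans h2, h3⟩⟩

lemma Ctx.nonFirst {Q Q' q : ℕ} {t t' : α → ℕ} (h : Ctx Q q t t') (hn : NonFirst t' Q' q) :
    NonFirst t Q' q := by
  obtain ⟨x, h1, h2⟩ := hn
  have h3 := h.2 x
  have h4 : t x = t' x := by omega
  exact ⟨x, h4 ▸ h1, h4 ▸ h2⟩

lemma spool_congr (hd : Qs ∣ Qh) {q : ℕ} {t t' : α → ℕ} (h : Ctx Qs q t t') :
    spool B g Q₁ lam Qh Qs Ψ t q = spool B g Q₁ lam Qh Qs Ψ t' q :=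
  pool_congr q fun _ hq' => ⟨(h.mono hd hq').adm_eq, (h.mono dvd_rfl hq').rem_eq⟩

lemma card_next_lt (hl : 0 < lam) {t : α → ℕ} {q : ℕ} {x : W → α} (h : Val B g Q₁ t q x) :
    ((Ψ t q x ∩ rem Qs t q) \ spool B g Q₁ lam Qh Qs Ψ t q).card < lam :=
  card_lt_of_mem hl q (mem_adm.2 ⟨t, x, h, Ctx.refl _ _ _, rfl⟩)

lemma sum_ann_le (hl : 0 < lam) (t : α → ℕ) (n : ℕ) :
    lam * ∑ q ∈ range n, (ann lam Qs (adm B g Q₁ Qh Ψ t) (rem Qs t) q).card ≤
      Fintype.card α :=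
  sum_ann hl (fun _ _ _ h1 h2 => (mem_rem.1 h1).1.symm.trans (mem_rem.1 h2).1) n

lemma sum_spool_le (hl : 0 < lam) (hQ : 0 < Qs) {σ : ℕ}
    (hσ : ∀ t q x, Val B g Q₁ t q x → (Ψ t q x).card ≤ σ) (t : α → ℕ) (n : ℕ) :
    lam * ∑ q ∈ range n, (spool B g Q₁ lam Qh Qs Ψ t q).card ≤ Qs * σ * Fintype.card α := by
  have h1 := sum_pool (a := adm B g Q₁ Qh Ψ t) (r := rem Qs t) hl hQ (σ := σ) (by
    intro q A hA
    obtain ⟨s, x, h1, -, rfl⟩ := mem_adm.1 hA
    exact hσ s q x h1) n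
  have h2 := sum_ann_le (B := B) (g := g) (Q₁ := Q₁) (Qh := Qh) (Qs := Qs) (Ψ := Ψ) hl t n
  calc _ ≤ lam * (Qs * σ *
        ∑ q ∈ range n, (ann lam Qs (adm B g Q₁ Qh Ψ t) (rem Qs t) q).card) :=
        Nat.mul_le_mul_left _ h1
    _ = Qs * σ * (lam *
        ∑ q ∈ range n, (ann lam Qs (adm B g Q₁ Qh Ψ t) (rem Qs t) q).card) := by ring
    _ ≤ _ := Nat.mul_le_mul_left _ h2

lemma card_late_le {t : α → ℕ} (ht : IsSk B g t) {Q : ℕ} (hQ : 0 < Q) (v : ℕ) :
    (univ.filter fun y => t y / Q = v ∧ y ∉ fst t Q).card ≤ Q * g := by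
  rcases (univ.filter fun y => t y / Q = v ∧ y ∉ fst t Q).eq_empty_or_nonempty with h | h
  · rw [h]
    simp
  obtain ⟨y₀, hy₀, hmin⟩ := exists_min_image _ t h
  simp only [mem_filter, mem_univ, true_and, mem_fst, not_not] at hy₀
  have hs : (univ.filter fun y => t y / Q = v ∧ y ∉ fst t Q) ⊆ rem Q t (t y₀) := by
    intro y hy
    refine mem_rem.2 ⟨?_, hmin y hy⟩
    rw [(mem_filter.1 hy).2.1, hy₀.1]
  refine (card_le_card hs).trans ?_
  have h1 := ht.card_up hQ hy₀.2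
  rw [rem, card_sdiff_of_subset (low_subset_up _ _ _), mul_comm Q g]
  omega

lemma spool_enc [Nonempty W] (hg : 0 < g) (hl : 0 < lam) (hQ : 0 < Qh) (hd : Q₁ ∣ Qh) {b : ℕ}
    (side : (α → ℕ) → ℕ → (W → α) → Finset W → Finset α)
    (hdet : ∀ t t' q x x', Val B g Q₁ t q x → Val B g Q₁ t' q x' → Ctx Qh q t t' →
      side t q x = side t' q x' → Ψ t q x = Ψ t' q x')
    (hside : ∀ t q x S, Val B g Q₁ t q x → side t q x S ⊆ rem Qh t q ∧ (side t q x S).card ≤ b) :
    Enc B g Qh (spool B g Q₁ lam Qh Qs Ψ)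
      (((Qh ^ b * 3 ^ g) ^ 2 ^ Fintype.card W) ^ (Fintype.card α / lam) *
        3 ^ Fintype.card α) := by
  classical
  have hex : ∀ (t : α → ℕ) (q : ℕ) (A : Finset α), ∃ s : Finset W → Finset α,
      A ∈ adm B g Q₁ Qh Ψ t q → ∃ t' x', Val B g Q₁ t' q x' ∧ Ctx Qh q t t' ∧
        A = Ψ t' q x' ∧ s = side t' q x' := by
    intro t q A
    by_cases hA : A ∈ adm B g Q₁ Qh Ψ t q
    · obtain ⟨t', x', h1, h2, h3⟩ := mem_adm.1 hA
      exact ⟨_, fun _ => ⟨t', x', h1, h2, h3, rfl⟩⟩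
    · exact ⟨fun _ => ∅, fun h => absurd h hA⟩
  choose sd hsd using hex
  set N := Fintype.card α with hN
  set an : (α → ℕ) → ℕ → Finset (Finset α) :=
    fun t => ann lam Qs (adm B g Q₁ Qh Ψ t) (rem Qs t) with han
  set f : (α → ℕ) → Finset (ℕ × (Finset W → Finset α)) :=
    fun t => (range N).biUnion fun q => (an t q).image fun A => (q, sd t q A) with hf
  have hsub : ∀ t q, an t q ⊆ adm B g Q₁ Qh Ψ t q := fun t q => ann_subset hl q
  have hlt : ∀ t q A, A ∈ an t q → q < N := by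
    intro t q A hA
    obtain ⟨t', x', h1, -⟩ := mem_adm.1 (hsub t q hA)
    rw [← h1.2.2 (Classical.arbitrary W)]
    exact h1.1.lt_card hg _
  obtain ⟨code, hc1, hc2⟩ := exists_code (IsSk B g) (fun t => (fun x => t x / Qh, fst t Qh)) f
    (((Qh ^ b * 3 ^ g) ^ 2 ^ Fintype.card W) ^ (N / lam) * 3 ^ N) (by
      intro k
      by_cases hk : ∃ t₀, IsSk B g t₀ ∧ (fun x => t₀ x / Qh, fst t₀ Qh) = k
      swap
      · exact ⟨∅, by simp, fun t ht h => absurd ⟨t, ht, h⟩ hk⟩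
      obtain ⟨t₀, ht₀, rfl⟩ := hk
      set U : Finset (ℕ × (Finset W → Finset α)) := (range N).biUnion fun q =>
        (Fintype.piFinset fun _ : Finset W =>
          (univ.filter fun y => t₀ y / Qh = q / Qh ∧ y ∉ fst t₀ Qh).powerset.filter
            fun F => F.card ≤ b).image fun s => (q, s) with hU
      have hUc : U.card ≤ (Qh ^ b * 3 ^ g) ^ 2 ^ Fintype.card W * N := by
        refine card_biUnion_le.trans ?_
        refine (sum_le_card_nsmul _ _ ((Qh ^ b * 3 ^ g) ^ 2 ^ Fintype.card W)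
          fun q _ => ?_).trans (by simp [mul_comm])
        refine card_image_le.trans ?_
        rw [Fintype.card_piFinset, prod_const, card_univ, Fintype.card_finset]
        exact Nat.pow_le_pow_left (card_small_subsets _ b hQ (card_late_le ht₀ hQ _)) _
      refine ⟨U.powerset.filter fun F => F.card ≤ N / lam,
        card_small_subsets U _ (by positivity) hUc, fun t ht hkey => ?_⟩
      simp only [Prod.mk.injEq] at hkey
      rw [mem_filter, mem_powerset]
      constructor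
      · intro p hp
        simp only [hf, mem_biUnion, mem_image] at hp
        obtain ⟨q, hq, A, hA, rfl⟩ := hp
        obtain ⟨t', x', h1, h2, -, h4⟩ := hsd t q A (hsub t q hA)
        simp only [hU, mem_biUnion, mem_image, Fintype.mem_piFinset, mem_filter, mem_powerset]
        refine ⟨q, hq, _, fun S => ⟨?_, ?_⟩, rfl⟩
        · intro y hy
          rw [h4] at hy
          have h5 := (hside t' q x' S h1).1 hy
          rw [← h2.rem_eq, mem_rem] at h5
          obtain ⟨z, hz1, hz2⟩ := h2.nonFirst (h1.2.1.mono hd)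
          simp only [mem_filter, mem_univ, true_and]
          rw [← congrFun hkey.1 y, ← hkey.2, mem_fst, not_not]
          exact ⟨h5.1, z, by omega, hz2.trans h5.1.symm⟩
        · rw [h4]
          exact (hside t' q x' S h1).2
      · rw [Nat.le_div_iff_mul_le hl, mul_comm]
        refine le_trans (Nat.mul_le_mul_left _ ?_) (sum_ann_le (B := B) (g := g) (Q₁ := Q₁)
          (Qh := Qh) (Qs := Qs) (Ψ := Ψ) hl t N)
        exact card_biUnion_le.trans (sum_le_sum fun q _ => card_image_le))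
  have hone : ∀ t t' q, f t = f t' → Ctx Qh q t t' → an t q ⊆ an t' q := by
    intro t t' q hff hc A hA
    have h0 : (q, sd t q A) ∈ f t' := by
      rw [← hff]
      simp only [hf, mem_biUnion, mem_image, mem_range]
      exact ⟨q, hlt t q A hA, A, hA, rfl⟩
    simp only [hf, mem_biUnion, mem_image, Prod.mk.injEq] at h0
    obtain ⟨q', -, A', hA', rfl, hs⟩ := h0
    obtain ⟨s, x, h1, h2, h3, h4⟩ := hsd t q' A (hsub t q' hA)
    obtain ⟨s', x', h1', h2', h3', h4'⟩ := hsd t' q' A' (hsub t' q' hA')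
    have : A = A' := by
      rw [h3, h3']
      exact hdet s s' q' x x' h1 h1' (h2.symm.trans (hc.trans h2')) (by rw [← h4, ← h4', hs])
    rwa [this]
  refine ⟨code, hc1, fun t t' ht ht' hfst hcode q hc => ?_⟩
  have hff : f t = f t' := hc2 t t' ht ht' (Prod.ext (funext hc.1) hfst) hcode
  ext y
  simp only [spool, mem_pool]
  constructor
  · rintro ⟨q', h1, h2, A, hA, hy⟩
    exact ⟨q', h1, h2, A, hone t t' q' hff (hc.mono dvd_rfl h1) hA, hy⟩
  · rintro ⟨q', h1, h2, A, hA, hy⟩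
    exact ⟨q', h1, h2, A, hone t' t q' hff.symm (hc.mono dvd_rfl h1).symm hA, hy⟩

end Pool.Agent.P.MP_b193f0_co
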