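import Pool.Agent.P.MP_b193f0_co.Tower

/-!
Pools for all horizons at once; most points are expensive at few horizons.
-/

set_option autoImplicit false
set_option maxHeartbeats 400000
set_option linter.unusedSectionVars false

namespace Pool.Agent.P.MP_b193f0_co

open Finset

variable {α : Type} [Fintype α] [DecidableEq α]
variable {W : Type} [Fintype W] [DecidableEq W]
variable {B : Finset α → Prop} {g : ℕ}

lemma code_bound {Q b g m N lam D H : ℕ} (hQ : 0 < Q) (hD : 0 < D)
    (h1 : 2 ^ m * b * D ≤ lam) (h2 : g ≤ H * lam) :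
    ((Q ^ b * 3 ^ g) ^ 2 ^ m) ^ (N / lam) * 3 ^ N ≤ Q ^ (N / D) * 3 ^ ((2 ^ m * H + 1) * N) := by
  have h3 : N / lam * lam ≤ N := Nat.div_mul_le_self _ _
  have e1 : b * 2 ^ m * (N / lam) ≤ N / D := by
    rw [Nat.le_div_iff_mul_le hD]
    calc b * 2 ^ m * (N / lam) * D = N / lam * (2 ^ m * b * D) := by ring
      _ ≤ N / lam * lam := Nat.mul_le_mul_left _ h1
      _ ≤ N := h3
  have e2 : g * 2 ^ m * (N / lam) + N ≤ (2 ^ m * H + 1) * N := by
    calc g * 2 ^ m * (N / lam) + N ≤ H * lam * 2 ^ m * (N / lam) + N := by gcongr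
      _ = 2 ^ m * H * (N / lam * lam) + N := by ring
      _ ≤ 2 ^ m * H * N + N := by gcongr
      _ = _ := by ring
  calc _ = Q ^ (b * 2 ^ m * (N / lam)) * 3 ^ (g * 2 ^ m * (N / lam) + N) := by
        rw [mul_pow, mul_pow, ← pow_mul, ← pow_mul, ← pow_mul, ← pow_mul, pow_add]
        ring
    _ ≤ _ := Nat.mul_le_mul (Nat.pow_le_pow_right hQ e1) (Nat.pow_le_pow_right (by norm_num) e2)

open Classical in
/-- The horizons at which the point `x` is expensive. -/
noncomputable def expens {K : ℕ} (Q : ℕ → ℕ) (PP : Fin K → (α → ℕ) → ℕ → Finset α)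
    (t : α → ℕ) (x : α) : Finset (Fin K) :=
  univ.filter fun k => NonFirst t (Q k) (t x) ∧ x ∉ PP k t (t x)

lemma mem_expens {K : ℕ} {Q : ℕ → ℕ} {PP : Fin K → (α → ℕ) → ℕ → Finset α}
    {t : α → ℕ} {x : α} {k : Fin K} :
    k ∈ expens Q PP t x ↔ NonFirst t (Q k) (t x) ∧ x ∉ PP k t (t x) := by
  simp [expens]

lemma exists_all_pools [Nonempty W] {L : ℕ} (hB : NoTower B W (L + 1)) (hg : 0 < g)
    {K D H Λ lam0 : ℕ} (Q R : ℕ → ℕ) (hQ : ∀ k, 0 < Q k) (hdvd : ∀ k, Q k ∣ Q (k + 1))
    (hR : ∀ j k, j < k → Q j ≤ R k) (hD : 0 < D) (hH : 0 < H) (hlam0 : 0 < lam0)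
    (hΛ : 2 ^ Fintype.card W * D ≤ Λ) (h0 : 2 ^ Fintype.card W * Fintype.card W * D ≤ lam0)
    (hgH : g ≤ H * lam0) :
    ∃ PP : Fin K → (α → ℕ) → ℕ → Finset α,
      (∀ k : Fin K, Enc B g (Q k) (PP k)
          ((Q k ^ (Fintype.card α / D) * 3 ^ ((2 ^ Fintype.card W * H + 1) * Fintype.card α)) ^
            (K ^ (L + 2) * (Fintype.card W * (L + 1)))) ∧
        ∀ t n, ∑ q ∈ range n, (PP k t q).card ≤
          (K ^ (L + 2) * (Fintype.card W * (L + 1))) * (H * Λ * R k ^ 2 * Fintype.card α)) ∧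
      ∀ t, IsSk B g t → (univ.filter fun x => L + 2 ≤ (expens Q PP t x).card).card ≤
        (Fintype.card α / g + 1) * (K ^ (L + 2) * (Fintype.card W * lam0)) := by
  classical
  have hΛ0 : 0 < Λ := lt_of_lt_of_le (by positivity) hΛ
  set sc : (Fin (L + 2) → Fin K) → ℕ → ℕ :=
    fun J l => Q (J ⟨min l (L + 1), by omega⟩) with hsc
  set lam : (Fin (L + 2) → Fin K) → ℕ → ℕ :=
    fun J u => Nat.casesOn u lam0 fun u => Λ * (g * sc J u) with hlam
  set b : (Fin (L + 2) → Fin K) → ℕ → ℕ :=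
    fun J u => Nat.casesOn u (Fintype.card W) fun u => g * sc J u with hb
  have hpos : ∀ J l, 0 < sc J l := fun J l => hQ _
  have hlampos : ∀ J u, 0 < lam J u := by
    intro J u
    cases u with
    | zero => exact hlam0
    | succ u => exact Nat.mul_pos hΛ0 (Nat.mul_pos hg (hpos J u))
  have hlam1 : ∀ J u, 2 ^ Fintype.card W * b J u * D ≤ lam J u := by
    intro J u
    cases u with
    | zero => exact h0
    | succ u =>
      calc 2 ^ Fintype.card W * (g * sc J u) * D = 2 ^ Fintype.card W * D * (g * sc J u) := by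
            ring
        _ ≤ Λ * (g * sc J u) := Nat.mul_le_mul_right _ hΛ
  have hlam2 : ∀ J u, g ≤ H * lam J u := by
    intro J u
    cases u with
    | zero => exact hgH
    | succ u =>
      calc g = 1 * (1 * (g * 1)) := by ring
        _ ≤ H * (Λ * (g * sc J u)) := by
          gcongr
          exacts [hH, hΛ0, hpos J u]
  have key : ∀ J : Fin (L + 2) → Fin K, ∃ P : W → ℕ → (α → ℕ) → ℕ → Finset α, StrictMono J →
      (∀ i, ∀ u < L + 1, Enc B g (sc J (u + 1)) (P i u)
          (((sc J (u + 1) ^ b J u * 3 ^ g) ^ 2 ^ Fintype.card W) ^ (Fintype.card α / lam J u) *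
            3 ^ Fintype.card α) ∧
        ∀ t n, lam J u * ∑ q ∈ range n, (P i u t q).card ≤
          sc J u * lam J (u + 1) * Fintype.card α) ∧
      ∀ t q (Y : Finset α), IsSk B g t →
        (∀ y ∈ Y, t y = q ∧ NonFirst t (sc J 0) q ∧ ∀ i, ∀ u < L + 1, y ∉ P i u t q) →
        Y.card ≤ Fintype.card W * lam J 0 := by
    intro J
    by_cases hJ : StrictMono J
    · obtain ⟨P, hP⟩ := exists_pools (sc := sc J) (lam := lam J) (b := b J) hB hg (hpos J)
        (fun l => dvd_of_le hdvd (hJ.monotone (by simp only [Fin.mk_le_mk]; omega)))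
        (hlampos J) le_rfl (fun u => le_rfl) (Nat.le_mul_of_pos_left _ hΛ0)
      exact ⟨P, fun _ => hP⟩
    · exact ⟨fun _ _ _ _ => ∅, fun h => absurd h hJ⟩
  choose P hP using key
  set s : Fin K → Finset ((Fin (L + 2) → Fin K) × W × Fin (L + 1)) :=
    fun k => univ.filter fun p => StrictMono p.1 ∧ p.1 p.2.2.succ = k with hs
  have hscard : ∀ k, (s k).card ≤ K ^ (L + 2) * (Fintype.card W * (L + 1)) := by
    intro k
    refine (card_le_univ _).trans ?_
    simp
  have hsc1 : ∀ (J : Fin (L + 2) → Fin K) (u : Fin (L + 1)), sc J (u + 1) = Q (J u.succ) := by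
    intro J u
    simp only [hsc]
    congr 3
    ext
    simp only [Fin.val_succ]
    omega
  have hsc2 : ∀ (J : Fin (L + 2) → Fin K) (u : Fin (L + 1)), sc J u = Q (J u.castSucc) := by
    intro J u
    simp only [hsc]
    congr 3
    ext
    simp only [Fin.val_castSucc]
    omega
  refine ⟨fun k t q => (s k).biUnion fun p => P p.1 p.2.1 p.2.2 t q, fun k => ⟨?_, ?_⟩, ?_⟩
  · refine (Enc.biUnion (s k) (P := fun p => P p.1 p.2.1 p.2.2)
      (c := Q k ^ (Fintype.card α / D) * 3 ^ ((2 ^ Fintype.card W * H + 1) * Fintype.card α))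
      ?_).mono (Nat.pow_le_pow_right (Nat.mul_pos (pow_pos (hQ k) _) (by positivity))
        (hscard k))
    rintro ⟨J, i, u⟩ hp
    simp only [hs, mem_filter, mem_univ, true_and] at hp
    have := ((hP J hp.1).1 i u u.2).1
    rw [hsc1, hp.2] at this
    exact this.mono (code_bound (hQ k) hD (hlam1 J u) (hlam2 J u))
  · intro t n
    have h1 : ∀ p ∈ s k, ∑ q ∈ range n, (P p.1 p.2.1 p.2.2 t q).card ≤
        H * Λ * R k ^ 2 * Fintype.card α := by
      rintro ⟨J, i, u⟩ hp
      simp only [hs, mem_filter, mem_univ, true_and] at hp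
      have h2 := ((hP J hp.1).1 i u u.2).2 t n
      have h3 : sc J u ≤ R k := by
        rw [hsc2]
        apply hR
        rw [← hp.2]
        exact hp.1 Fin.castSucc_lt_succ
      refine Nat.le_of_mul_le_mul_left ?_ hg
      calc g * ∑ q ∈ range n, (P J i u t q).card
          ≤ H * lam J u * ∑ q ∈ range n, (P J i u t q).card :=
            Nat.mul_le_mul_right _ (hlam2 J u)
        _ = H * (lam J u * ∑ q ∈ range n, (P J i u t q).card) := by ring
        _ ≤ H * (sc J u * (Λ * (g * sc J u)) * Fintype.card α) := Nat.mul_le_mul_left _ h2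
        _ ≤ H * (R k * (Λ * (g * R k)) * Fintype.card α) := by gcongr
        _ = _ := by ring
    calc _ ≤ ∑ q ∈ range n, ∑ p ∈ s k, (P p.1 p.2.1 p.2.2 t q).card :=
          sum_le_sum fun q _ => card_biUnion_le
      _ = ∑ p ∈ s k, ∑ q ∈ range n, (P p.1 p.2.1 p.2.2 t q).card := sum_comm
      _ ≤ (s k).card * (H * Λ * R k ^ 2 * Fintype.card α) := by
          simpa using sum_le_card_nsmul _ _ _ h1
      _ ≤ _ := Nat.mul_le_mul_right _ (hscard k)
  · intro t ht
    set PP : Fin K → (α → ℕ) → ℕ → Finset α :=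
      fun k t q => (s k).biUnion fun p => P p.1 p.2.1 p.2.2 t q with hPP
    have hcov : (univ.filter fun x => L + 2 ≤ (expens Q PP t x).card) ⊆
        (range (Fintype.card α / g + 1)).biUnion fun q =>
          (univ.filter fun J : Fin (L + 2) → Fin K => StrictMono J).biUnion fun J =>
            univ.filter fun y => t y = q ∧ ∀ l, J l ∈ expens Q PP t y := by
      intro x hx
      have hx' := (mem_filter.1 hx).2
      simp only [mem_biUnion, mem_range, mem_filter, mem_univ, true_and]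
      exact ⟨t x, Nat.lt_succ_of_le ((Nat.le_div_iff_mul_le hg).2 (ht.lt x).le),
        (expens Q PP t x).orderEmbOfCardLe hx', (orderEmbOfCardLe _ hx').strictMono, rfl,
        fun l => orderEmbOfCardLe_mem _ hx' l⟩
    refine (card_le_card hcov).trans (card_biUnion_le.trans ?_)
    refine (sum_le_card_nsmul _ _ (K ^ (L + 2) * (Fintype.card W * lam0)) fun q _ => ?_).trans
      (by simp)
    refine card_biUnion_le.trans ?_
    refine (sum_le_card_nsmul _ _ (Fintype.card W * lam0) fun J hJ => ?_).trans ?_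
    · have hJ' := (mem_filter.1 hJ).2
      refine (hP J hJ').2 t q _ ht fun y hy => ?_
      obtain ⟨h1, h2⟩ := (mem_filter.1 hy).2
      refine ⟨h1, ?_, fun i u hu hmem => ?_⟩
      · rw [← h1]
        exact (mem_expens.1 (h2 _)).1
      · refine (mem_expens.1 (h2 (Fin.succ ⟨u, hu⟩))).2 ?_
        simp only [hPP, mem_biUnion, hs, mem_filter, mem_univ, true_and]
        exact ⟨(J, i, ⟨u, hu⟩), ⟨hJ', rfl⟩, h1 ▸ hmem⟩
    · rw [smul_eq_mul]
      refine Nat.mul_le_mul_right _ ((card_le_univ _).trans ?_)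
      simp

end Pool.Agent.P.MP_b193f0_co
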