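import Pool.Agent.P.MP_b193f0_co.Stage

/-!
The canonical tower of sets over a tuple of points, and the cascade of pools.
-/

set_option autoImplicit false
set_option maxHeartbeats 400000
set_option linter.unusedSectionVars false

namespace Pool.Agent.P.MP_b193f0_co

open Finset

variable {α : Type} [Fintype α] [DecidableEq α]
variable {W : Type} [Fintype W] [DecidableEq W]

open Classical in
/-- A chosen member of `B` between `M` and `V` with at most `n` points. -/
noncomputable def can (B : Finset α → Prop) (M : Finset α) (n : ℕ) (V : Finset α) : Finset α :=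
  if h : ∃ E, B E ∧ M ⊆ E ∧ E ⊆ V ∧ E.card ≤ n then h.choose else ∅

lemma can_spec {B : Finset α → Prop} {M : Finset α} {n : ℕ} {V : Finset α}
    (h : ∃ E, B E ∧ M ⊆ E ∧ E ⊆ V ∧ E.card ≤ n) :
    B (can B M n V) ∧ M ⊆ can B M n V ∧ can B M n V ⊆ V ∧ (can B M n V).card ≤ n := by
  rw [can, dif_pos h]
  exact h.choose_spec

/-- The canonical tower. -/
noncomputable def tower (B : Finset α → Prop) (g : ℕ) (sc : ℕ → ℕ) (t : α → ℕ) (q : ℕ)
    (x : W → α) : ℕ → Finset W → Finset α
  | 0 => fun S => low t q ∪ S.image x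
  | l + 1 => fun S => can B (S.powerset.biUnion (tower B g sc t q x l))
      ((low t q).card + g * sc l) (up t (sc (l + 1)) q)

/-- In every tower of members of `B`, some point is swallowed at level `L`. -/
def NoTower (B : Finset α → Prop) (W : Type) [Fintype W] [DecidableEq W] (L : ℕ) : Prop :=
  ∀ (x : W → α) (E : ℕ → Finset W → Finset α), (∀ S, S.image x ⊆ E 0 S) →
    (∀ l S, B (E (l + 1) S)) → (∀ l S S', S' ⊆ S → E l S' ⊆ E (l + 1) S) →
      ∃ i, x i ∈ E L (univ.erase i)

variable {B : Finset α → Prop} {g : ℕ} {sc : ℕ → ℕ}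

lemma dvd_of_le (hsc : ∀ l, sc l ∣ sc (l + 1)) {l l' : ℕ} (h : l ≤ l') : sc l ∣ sc l' := by
  induction h with
  | refl => exact dvd_rfl
  | step _ ih => exact ih.trans (hsc _)

lemma tower_succ_spec (hpos : ∀ l, 0 < sc l) (hsc : ∀ l, sc l ∣ sc (l + 1))
    {t : α → ℕ} {q : ℕ} {x : W → α} (h : Val B g (sc 0) t q x) {l : ℕ}
    (hl : ∀ S, tower B g sc t q x l S ⊆ up t (sc l) q) (S : Finset W) :
    B (tower B g sc t q x (l + 1) S) ∧
      S.powerset.biUnion (tower B g sc t q x l) ⊆ tower B g sc t q x (l + 1) S ∧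
      tower B g sc t q x (l + 1) S ⊆ up t (sc (l + 1)) q ∧
      (tower B g sc t q x (l + 1) S).card ≤ (low t q).card + g * sc l :=
  can_spec ⟨up t (sc l) q, h.1.up_mem (hpos l) q, biUnion_subset.2 fun S' _ => hl S',
    up_mono t (hsc l) q, h.1.card_up (hpos l) (h.2.1.mono (dvd_of_le hsc (Nat.zero_le l)))⟩

lemma tower_subset_up (hpos : ∀ l, 0 < sc l) (hsc : ∀ l, sc l ∣ sc (l + 1))
    {t : α → ℕ} {q : ℕ} {x : W → α} (h : Val B g (sc 0) t q x) (l : ℕ) (S : Finset W) :
    tower B g sc t q x l S ⊆ up t (sc l) q := by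
  induction l generalizing S with
  | zero =>
    refine union_subset (low_subset_up _ _ _) fun y hy => ?_
    obtain ⟨i, -, rfl⟩ := mem_image.1 hy
    rw [mem_up, h.2.2 i]
  | succ l ih => exact (tower_succ_spec hpos hsc h ih S).2.2.1

lemma tower_step (hpos : ∀ l, 0 < sc l) (hsc : ∀ l, sc l ∣ sc (l + 1))
    {t : α → ℕ} {q : ℕ} {x : W → α} (h : Val B g (sc 0) t q x) (l : ℕ) (S S' : Finset W)
    (hS : S' ⊆ S) : tower B g sc t q x l S' ⊆ tower B g sc t q x (l + 1) S :=
  (subset_biUnion_of_mem _ (mem_powerset.2 hS)).trans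
    (tower_succ_spec hpos hsc h (tower_subset_up hpos hsc h l) S).2.1

lemma low_subset_tower (hpos : ∀ l, 0 < sc l) (hsc : ∀ l, sc l ∣ sc (l + 1))
    {t : α → ℕ} {q : ℕ} {x : W → α} (h : Val B g (sc 0) t q x) (l : ℕ) (S : Finset W) :
    low t q ⊆ tower B g sc t q x l S := by
  induction l with
  | zero => exact subset_union_left
  | succ l ih => exact ih.trans (tower_step hpos hsc h l S S Subset.rfl)

lemma card_tower_succ (hpos : ∀ l, 0 < sc l) (hsc : ∀ l, sc l ∣ sc (l + 1))
    {t : α → ℕ} {q : ℕ} {x : W → α} (h : Val B g (sc 0) t q x) (l : ℕ) (S : Finset W) :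
    (tower B g sc t q x (l + 1) S \ low t q).card ≤ g * sc l := by
  have := (tower_succ_spec hpos hsc h (tower_subset_up hpos hsc h l) S).2.2.2
  rw [card_sdiff_of_subset (low_subset_tower hpos hsc h _ S)]
  omega

lemma card_tower_zero (t : α → ℕ) (q : ℕ) (x : W → α) (S : Finset W) :
    (tower B g sc t q x 0 S \ low t q).card ≤ Fintype.card W := by
  have : tower B g sc t q x 0 S \ low t q ⊆ S.image x := by
    intro y hy
    simp only [tower, mem_sdiff, mem_union] at hy
    tauto
  exact (card_le_card this).trans (card_image_le.trans (card_le_univ _))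

lemma tower_det (hsc : ∀ l, sc l ∣ sc (l + 1)) {t t' : α → ℕ} {q : ℕ} {x x' : W → α} {u : ℕ}
    (hc : Ctx (sc (u + 1)) q t t') (h : tower B g sc t q x u = tower B g sc t' q x' u)
    {l : ℕ} (hl : u ≤ l) : tower B g sc t q x l = tower B g sc t' q x' l := by
  induction hl with
  | refl => exact h
  | @step l hl ih =>
    have := (hc.mono (dvd_of_le hsc (Nat.succ_le_succ hl)) le_rfl).up_eq q
    simp only [tower, ih, hc.low_eq]
    rw [this]

lemma tower_local (t : α → ℕ) (q : ℕ) {x x' : W → α} (l : ℕ) (S : Finset W)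
    (h : ∀ i ∈ S, x i = x' i) : tower B g sc t q x l S = tower B g sc t q x' l S := by
  induction l generalizing S with
  | zero =>
    simp only [tower]
    rw [image_congr h]
  | succ l ih =>
    simp only [tower]
    rw [biUnion_congr rfl fun S' hS' => ih S' fun i hi => h i (mem_powerset.1 hS' hi)]

lemma NoTower.exists_mem {L : ℕ} (hB : NoTower B W L) (hpos : ∀ l, 0 < sc l)
    (hsc : ∀ l, sc l ∣ sc (l + 1)) {t : α → ℕ} {q : ℕ} {x : W → α}
    (h : Val B g (sc 0) t q x) : ∃ i, x i ∈ tower B g sc t q x L (univ.erase i) :=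
  hB x _ (fun _ => subset_union_right)
    (fun l S => (tower_succ_spec hpos hsc h (tower_subset_up hpos hsc h l) S).1)
    (tower_step hpos hsc h)

/-- The family `Ψ` is determined by level `u` of the tower and the context at scale `u + 1`. -/
def Det (B : Finset α → Prop) (g : ℕ) (sc : ℕ → ℕ) (u : ℕ)
    (Ψ : (α → ℕ) → ℕ → (W → α) → Finset α) : Prop :=
  ∀ t t' q x x', Val B g (sc 0) t q x → Val B g (sc 0) t' q x' → Ctx (sc (u + 1)) q t t' →
    tower B g sc t q x u = tower B g sc t' q x' u → Ψ t q x = Ψ t' q x'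

lemma cascade [Nonempty W] (hg : 0 < g) (hpos : ∀ l, 0 < sc l) (hsc : ∀ l, sc l ∣ sc (l + 1))
    {lam b : ℕ → ℕ} (hlam : ∀ u, 0 < lam u) (hb0 : Fintype.card W ≤ b 0)
    (hb : ∀ u, g * sc u ≤ b (u + 1)) (i : W) (L : ℕ) :
    ∀ Ψ : (α → ℕ) → ℕ → (W → α) → Finset α, (∀ u < L, Det B g sc u Ψ) →
      (∀ t q x, Val B g (sc 0) t q x → (Ψ t q x).card ≤ lam L) →
      (∀ t q x a, Ψ t q (Function.update x i a) = Ψ t q x) →
      ∃ P : ℕ → (α → ℕ) → ℕ → Finset α,
        (∀ u < L, Enc B g (sc (u + 1)) (P u)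
            (((sc (u + 1) ^ b u * 3 ^ g) ^ 2 ^ Fintype.card W) ^ (Fintype.card α / lam u) *
              3 ^ Fintype.card α) ∧
          ∀ t n, lam u * ∑ q ∈ range n, (P u t q).card ≤
            sc u * lam (u + 1) * Fintype.card α) ∧
        ∃ Ψ₀ : (α → ℕ) → ℕ → (W → α) → Finset α,
          (∀ t q x, Val B g (sc 0) t q x → (Ψ₀ t q x).card ≤ lam 0) ∧
          (∀ t q x a, Ψ₀ t q (Function.update x i a) = Ψ₀ t q x) ∧
          ∀ t q x y, t y = q → (∀ u < L, y ∉ P u t q) → y ∈ Ψ t q x → y ∈ Ψ₀ t q x := by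
  induction L with
  | zero =>
    intro Ψ _ h2 h3
    exact ⟨fun _ _ _ => ∅, by simp, Ψ, h2, h3, fun _ _ _ _ _ _ h => h⟩
  | succ L ih =>
    intro Ψ h1 h2 h3
    set Pn := spool B g (sc 0) (lam L) (sc (L + 1)) (sc L) Ψ with hPn
    obtain ⟨P, hP, Ψ₀, k1, k2, k3⟩ := ih (fun t q x => (Ψ t q x ∩ rem (sc L) t q) \ Pn t q)
      (by
        intro u hu t t' q x x' v1 v2 hc ht
        have hc' : Ctx (sc L) q t t' := hc.mono (dvd_of_le hsc hu) le_rfl
        simp only
        rw [h1 u (by omega) t t' q x x' v1 v2 hc ht, hc'.rem_eq, hPn, spool_congr (hsc L) hc'])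
      (fun t q x hv => (card_next_lt (hlam L) hv).le)
      (fun t q x a => by simp only [h3])
    refine ⟨fun u => if u = L then Pn else P u, fun u hu => ?_, Ψ₀, k1, k2, ?_⟩
    · by_cases huL : u = L
      · subst huL
        simp only [if_true]
        refine ⟨spool_enc hg (hlam u) (hpos _) (dvd_of_le hsc (Nat.zero_le _))
          (fun t q x S => tower B g sc t q x u S \ low t q) ?_ ?_,
          fun t n => sum_spool_le (hlam u) (hpos u) h2 t n⟩
        · intro t t' q x x' v1 v2 hc hs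
          refine h1 u hu t t' q x x' v1 v2 hc (funext fun S => ?_)
          rw [← sdiff_union_of_subset (low_subset_tower hpos hsc v1 u S),
            ← sdiff_union_of_subset (low_subset_tower hpos hsc v2 u S), ← congrFun hs S,
            hc.low_eq]
        · intro t q x S hv
          refine ⟨sdiff_subset_sdiff
            ((tower_subset_up hpos hsc hv u S).trans (up_mono t (hsc u) q)) Subset.rfl, ?_⟩
          cases u with
          | zero => exact (card_tower_zero t q x S).trans hb0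
          | succ u => exact (card_tower_succ hpos hsc hv u S).trans (hb u)
      · simp only [if_neg huL]
        exact hP u (by omega)
    · intro t q x y hy hn hΨ
      refine k3 t q x y hy (fun u hu => ?_) ?_
      · have := hn u (by omega)
        simpa only [if_neg hu.ne] using this
      · have := hn L (by omega)
        simp only [if_true] at this
        simp only [mem_sdiff, mem_inter, mem_rem]
        exact ⟨⟨hΨ, by rw [hy], hy.ge⟩, this⟩

/-- The pools attached to a sequence of scales. -/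
lemma exists_pools [Nonempty W] {L : ℕ} (hB : NoTower B W (L + 1)) (hg : 0 < g)
    (hpos : ∀ l, 0 < sc l) (hsc : ∀ l, sc l ∣ sc (l + 1))
    {lam b : ℕ → ℕ} (hlam : ∀ u, 0 < lam u) (hb0 : Fintype.card W ≤ b 0)
    (hb : ∀ u, g * sc u ≤ b (u + 1)) (htop : g * sc L ≤ lam (L + 1)) :
    ∃ P : W → ℕ → (α → ℕ) → ℕ → Finset α,
      (∀ i, ∀ u < L + 1, Enc B g (sc (u + 1)) (P i u)
          (((sc (u + 1) ^ b u * 3 ^ g) ^ 2 ^ Fintype.card W) ^ (Fintype.card α / lam u) *
            3 ^ Fintype.card α) ∧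
        ∀ t n, lam u * ∑ q ∈ range n, (P i u t q).card ≤
          sc u * lam (u + 1) * Fintype.card α) ∧
      ∀ t q (Y : Finset α), IsSk B g t →
        (∀ y ∈ Y, t y = q ∧ NonFirst t (sc 0) q ∧ ∀ i, ∀ u < L + 1, y ∉ P i u t q) →
        Y.card ≤ Fintype.card W * lam 0 := by
  have key := fun i : W => cascade (B := B) hg hpos hsc hlam hb0 hb i (L + 1)
    (fun t q x => tower B g sc t q x (L + 1) (univ.erase i) \ low t q)
    (by
      intro u hu t t' q x x' _ _ hc ht
      simp only
      rw [tower_det hsc hc ht hu.le, hc.low_eq])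
    (fun t q x hv => (card_tower_succ hpos hsc hv L _).trans htop)
    (by
      intro t q x a
      rw [tower_local t q (L + 1) (univ.erase i) (x' := x)]
      intro j hj
      exact Function.update_of_ne (mem_erase.1 hj).1 _ _)
  choose P hP Ψ₀ k1 k2 k3 using key
  refine ⟨P, hP, fun t q Y ht hY => ?_⟩
  have hv : ∀ x : W → α, (∀ j, x j ∈ Y) → Val B g (sc 0) t q x := fun x hx =>
    ⟨ht, (hY _ (hx (Classical.arbitrary W))).2.1, fun j => (hY _ (hx j)).1⟩
  refine card_le_of_no_free Y (fun i x => Ψ₀ i t q x) (lam 0) (fun i x a => k2 i t q x a)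
    (fun i x hx => k1 i t q x (hv x hx)) fun x hx => ?_
  obtain ⟨i, hi⟩ := hB.exists_mem hpos hsc (hv x hx)
  have h1 := hY _ (hx i)
  refine ⟨i, k3 i t q x _ h1.1 (h1.2.2 i) (mem_sdiff.2 ⟨hi, ?_⟩)⟩
  rw [mem_low, h1.1]
  exact lt_irrefl _

end Pool.Agent.P.MP_b193f0_co
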